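import Mathlib

set_option autoImplicit false

open Metric Set Complex Filter Topology

namespace Pool.Agent.H59.Cara

/-- A uniform first order estimate in the first variable. -/
lemma first_var_estimate (Φ : ℂ × ℂ → ℂ) (U : Set (ℂ × ℂ)) (hU : IsOpen U) (h0 : (0 : ℂ × ℂ) ∈ U)
    (hΦ : DifferentiableOn ℂ Φ U) (a b : ℂ)
    (hd : ∀ v, fderiv ℂ Φ 0 v = a * v.1 + b * v.2) :
    ∀ ε > 0, ∃ δ > 0, ∀ u w : ℂ, ‖u‖ < δ → ‖w‖ < δ →
      ‖Φ (u, w) - Φ (0, w) - a * u‖ ≤ ε * ‖u‖ := by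
  intro ε hε
  have hdiff : DifferentiableAt ℂ Φ 0 := hΦ.differentiableAt (hU.mem_nhds h0)
  have hF := hdiff.hasFDerivAt
  -- estimate at `w = 0`
  have h1 : ∃ r1 > 0, ∀ u : ℂ, ‖u‖ < r1 → ‖Φ (u, 0) - Φ (0, 0) - a * u‖ ≤ (ε / 2) * ‖u‖ := by
    have h2 := (hF.isLittleO.def (c := ε / 2) (by positivity))
    rw [Metric.eventually_nhds_iff] at h2
    obtain ⟨r1, hr1, h3⟩ := h2
    refine ⟨r1, hr1, fun u hu => ?_⟩
    have h4 := @h3 (u, 0) (by simpa [Prod.dist_eq] using hu)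
    simp only [sub_zero, hd] at h4
    have h5 : ‖((u, 0) : ℂ × ℂ)‖ = ‖u‖ := by simp [Prod.norm_def]
    rw [h5] at h4
    have e : ((0 : ℂ), (0 : ℂ)) = (0 : ℂ × ℂ) := rfl
    rw [e]
    simpa using h4
  obtain ⟨r1, hr1, h1⟩ := h1
  obtain ⟨r2, hr2, h2⟩ := Metric.isOpen_iff.mp hU 0 h0
  set r : ℝ := min r1 r2 / 2 with hr
  have hr0 : 0 < r := by positivity
  have hrr1 : r < r1 := by
    have := min_le_left r1 r2
    linarith
  have hrr2 : r < r2 := by
    have := min_le_right r1 r2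
    linarith
  set C : Set (ℂ × ℂ) := closedBall 0 r ×ˢ closedBall 0 r with hC
  have hCU : C ⊆ U := by
    intro p hp
    apply h2
    rw [hC, mem_prod, mem_closedBall_zero_iff, mem_closedBall_zero_iff] at hp
    rw [mem_ball_zero_iff, Prod.norm_def]
    exact max_lt (hp.1.trans_lt hrr2) (hp.2.trans_lt hrr2)
  have hCcomp : IsCompact C := (isCompact_closedBall _ _).prod (isCompact_closedBall _ _)
  set K : ℂ × ℂ → ℂ := fun p => Φ p - Φ (0, p.2) - a * p.1 with hK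
  have hmap : ∀ p ∈ C, ((0 : ℂ), p.2) ∈ C := by
    intro p hp
    rw [hC, mem_prod] at hp ⊢
    exact ⟨by simp [hr0.le], hp.2⟩
  have hKcont : ContinuousOn K C := by
    have hΦc : ContinuousOn Φ C := hΦ.continuousOn.mono hCU
    have h3 : ContinuousOn (fun p : ℂ × ℂ => Φ (0, p.2)) C :=
      hΦc.comp (by fun_prop) hmap
    exact (hΦc.sub h3).sub (by fun_prop)
  have huc := hCcomp.uniformContinuousOn_of_continuous hKcont
  rw [Metric.uniformContinuousOn_iff] at huc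
  obtain ⟨δ, hδ, huc⟩ := huc (ε * r / 2) (by positivity)
  refine ⟨min δ r, by positivity, fun u w hu hw => ?_⟩
  have hur : ‖u‖ < r := hu.trans_le (min_le_right _ _)
  have hwr : ‖w‖ < r := hw.trans_le (min_le_right _ _)
  have hwδ : ‖w‖ < δ := hw.trans_le (min_le_left _ _)
  have hbound : ∀ u' : ℂ, ‖u'‖ < r → ‖K (u', w)‖ ≤ ε * r := by
    intro u' hu'
    have hm1 : ((u', w) : ℂ × ℂ) ∈ C := by
      rw [hC, mem_prod]
      simp [hu'.le, hwr.le]
    have hm2 : ((u', 0) : ℂ × ℂ) ∈ C := by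
      rw [hC, mem_prod]
      simp [hu'.le, hr0.le]
    have h5 := huc _ hm1 _ hm2 (by simpa [Prod.dist_eq] using hwδ)
    have h6 := h1 u' (hu'.trans hrr1)
    have h7 : ‖K (u', 0)‖ ≤ (ε / 2) * ‖u'‖ := by simpa [hK] using h6
    have h8 : ‖K (u', w)‖ ≤ dist (K (u', w)) (K (u', 0)) + ‖K (u', 0)‖ := by
      rw [dist_eq_norm]
      have := norm_add_le (K (u', w) - K (u', 0)) (K (u', 0))
      simpa using this
    nlinarith [norm_nonneg u']
  have hsch := Complex.dist_le_div_mul_dist_of_mapsTo_ball (f := fun u' : ℂ => K (u', w))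
    (c := 0) (z := u) (R₁ := r) (R₂ := ε * r) ?_ ?_ (by simpa using hur)
  · have h9 : K (0, w) = 0 := by simp [hK]
    simp only [h9, dist_zero_right] at hsch
    rw [mul_div_assoc, div_self hr0.ne', mul_one] at hsch
    simpa [hK] using hsch
  · intro u' hu'
    have hu'' : ‖u'‖ < r := by simpa using hu'
    have hmem : ((u', w) : ℂ × ℂ) ∈ U := hCU (by rw [hC, mem_prod]; simp [hu''.le, hwr.le])
    apply DifferentiableAt.differentiableWithinAt
    have h3 : DifferentiableAt ℂ (fun u' : ℂ => Φ (u', w)) u' := by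
      have h4 : DifferentiableAt ℂ Φ (u', w) := hΦ.differentiableAt (hU.mem_nhds hmem)
      exact DifferentiableAt.comp (g := Φ) (f := fun u' : ℂ => (u', w)) u' h4 (by fun_prop)
    have h10 : DifferentiableAt ℂ (fun u' : ℂ => Φ (u', w) - Φ (0, w) - a * u') u' :=
      (h3.sub_const _).sub (differentiableAt_id.const_mul a)
    exact h10
  · intro u' hu'
    have h9 : K (0, w) = 0 := by simp [hK]
    simp only [h9, mem_closedBall_zero_iff]
    exact hbound u' (by simpa using hu')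

/-- If `F = o(w^k)` then the `k`-th derivative at `0` vanishes. -/
lemma iteratedDeriv_eq_zero_of_littleO (F : ℂ → ℂ) (r0 : ℝ) (hr0 : 0 < r0)
    (hF : DifferentiableOn ℂ F (ball 0 r0)) (k : ℕ)
    (h : ∀ ε > 0, ∃ δ > 0, ∀ w : ℂ, ‖w‖ < δ → ‖F w‖ ≤ ε * ‖w‖ ^ k) :
    iteratedDeriv k F 0 = 0 := by
  have hkey : ∀ ε > 0, ‖iteratedDeriv k F 0‖ ≤ k.factorial * ε := by
    intro ε hε
    obtain ⟨δ, hδ, hb⟩ := h ε hε
    set R : ℝ := min δ r0 / 2 with hR
    have hRpos : 0 < R := by positivity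
    have hR1 : R < δ := by have := min_le_left δ r0; linarith
    have hR2 : R < r0 := by have := min_le_right δ r0; linarith
    have hd : DiffContOnCl ℂ F (ball 0 R) := by
      apply DifferentiableOn.diffContOnCl
      apply hF.mono
      exact closure_ball_subset_closedBall.trans (closedBall_subset_ball hR2)
    have h1 := Complex.norm_iteratedDeriv_le_of_forall_mem_sphere_norm_le (C := ε * R ^ k) k hRpos hd
      (fun z hz => by
        have hz' : ‖z‖ = R := by simpa using hz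
        have := hb z (by rw [hz']; exact hR1)
        rwa [hz'] at this)
    have h2 : (k.factorial : ℝ) * (ε * R ^ k) / R ^ k = k.factorial * ε := by
      field_simp
    rwa [h2] at h1
  by_contra hne
  have hpos : 0 < ‖iteratedDeriv k F 0‖ := norm_pos_iff.mpr hne
  have hfac : (0 : ℝ) < k.factorial := by exact_mod_cast k.factorial_pos
  have h1 := hkey (‖iteratedDeriv k F 0‖ / (2 * k.factorial)) (by positivity)
  have h2 : (k.factorial : ℝ) * (‖iteratedDeriv k F 0‖ / (2 * k.factorial)) =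
      ‖iteratedDeriv k F 0‖ / 2 := by field_simp
  rw [h2] at h1
  linarith

/-- The open unit ball of `ℂ²` in product coordinates. -/
def D : Set (ℂ × ℂ) := {p | ‖p.1‖ ^ 2 + ‖p.2‖ ^ 2 < 1}

lemma isOpen_D : IsOpen D := isOpen_lt (by fun_prop) continuous_const

lemma zero_mem_D : (0 : ℂ × ℂ) ∈ D := by simp [D]

/-- The `k`-th Taylor coefficient along the curve `w ↦ (c w^k, w)`. -/
lemma iteratedDeriv_curve (Φ : ℂ × ℂ → ℂ) (hΦ : DifferentiableOn ℂ Φ D) (a b : ℂ)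
    (hd : ∀ v, fderiv ℂ Φ 0 v = a * v.1 + b * v.2) (k : ℕ) (hk : 1 ≤ k) (c : ℂ) :
    iteratedDeriv k (fun w : ℂ => Φ (c * w ^ k, w)) 0 =
      iteratedDeriv k (fun w : ℂ => Φ (0, w)) 0 + a * c * k.factorial := by
  -- differentiability near zero
  have hcurve : ContinuousAt (fun w : ℂ => (c * w ^ k, w)) 0 := by fun_prop
  have hc0 : (fun w : ℂ => (c * w ^ k, w)) 0 = 0 := by
    simp [zero_pow (by omega : k ≠ 0)]
  have hnb : ∀ᶠ w in 𝓝 (0 : ℂ), (c * w ^ k, w) ∈ D :=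
    hcurve (by rw [hc0]; exact isOpen_D.mem_nhds zero_mem_D)
  have hnb2 : ∀ᶠ w in 𝓝 (0 : ℂ), ((0 : ℂ), w) ∈ D := by
    have : ContinuousAt (fun w : ℂ => ((0 : ℂ), w)) 0 := by fun_prop
    exact this (isOpen_D.mem_nhds zero_mem_D)
  obtain ⟨r0, hr0, hball⟩ := Metric.eventually_nhds_iff_ball.mp (hnb.and hnb2)
  have hf : DifferentiableOn ℂ (fun w : ℂ => Φ (c * w ^ k, w)) (ball 0 r0) := by
    intro w hw
    apply DifferentiableAt.differentiableWithinAt
    have h4 : DifferentiableAt ℂ Φ (c * w ^ k, w) :=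
      hΦ.differentiableAt (isOpen_D.mem_nhds (hball w hw).1)
    exact DifferentiableAt.comp (g := Φ) (f := fun w : ℂ => (c * w ^ k, w)) w h4 (by fun_prop)
  have hg : DifferentiableOn ℂ (fun w : ℂ => Φ (0, w)) (ball 0 r0) := by
    intro w hw
    apply DifferentiableAt.differentiableWithinAt
    have h4 : DifferentiableAt ℂ Φ (0, w) :=
      hΦ.differentiableAt (isOpen_D.mem_nhds (hball w hw).2)
    exact DifferentiableAt.comp (g := Φ) (f := fun w : ℂ => ((0 : ℂ), w)) w h4 (by fun_prop)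
  have hfA : ContDiffAt ℂ k (fun w : ℂ => Φ (c * w ^ k, w)) 0 :=
    (hf.analyticAt (ball_mem_nhds 0 hr0)).contDiffAt
  have hgA : ContDiffAt ℂ k (fun w : ℂ => Φ (0, w)) 0 :=
    (hg.analyticAt (ball_mem_nhds 0 hr0)).contDiffAt
  have hpA : ContDiffAt ℂ k (fun w : ℂ => a * c * w ^ k) 0 := by fun_prop
  have hzero : iteratedDeriv k (fun w : ℂ => Φ (c * w ^ k, w) - Φ (0, w) - a * c * w ^ k) 0 = 0 := by
    apply iteratedDeriv_eq_zero_of_littleO _ r0 hr0
    · exact (hf.sub hg).sub (by fun_prop)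
    · intro ε hε
      obtain ⟨δ, hδ, hest⟩ := first_var_estimate Φ D isOpen_D zero_mem_D hΦ a b hd
        (ε / (‖c‖ + 1)) (by positivity)
      have hcn : ContinuousAt (fun w : ℂ => c * w ^ k) 0 := by fun_prop
      have hev : ∀ᶠ w in 𝓝 (0 : ℂ), ‖c * w ^ k‖ < δ := by
        have h5 : Tendsto (fun w : ℂ => ‖c * w ^ k‖) (𝓝 0) (𝓝 0) := by
          have := hcn.norm.tendsto
          simpa [zero_pow (by omega : k ≠ 0)] using this
        exact h5.eventually (gt_mem_nhds hδ)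
      obtain ⟨δ', hδ', hb⟩ := Metric.eventually_nhds_iff.mp hev
      refine ⟨min δ δ', by positivity, fun w hw => ?_⟩
      have h6 := hest (c * w ^ k) w (hb (by simpa using hw.trans_le (min_le_right _ _)))
        (hw.trans_le (min_le_left _ _))
      rw [← mul_assoc] at h6
      refine h6.trans ?_
      rw [norm_mul, norm_pow, ← mul_assoc]
      apply mul_le_mul_of_nonneg_right _ (by positivity)
      rw [div_mul_eq_mul_div, div_le_iff₀ (by positivity)]
      nlinarith [norm_nonneg c]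
  have h1 : iteratedDeriv k (fun w : ℂ => Φ (c * w ^ k, w) - Φ (0, w) - a * c * w ^ k) 0 =
      iteratedDeriv k (fun w : ℂ => Φ (c * w ^ k, w)) 0 -
        iteratedDeriv k (fun w : ℂ => Φ (0, w)) 0 - a * c * k.factorial := by
    rw [iteratedDeriv_fun_sub (hfA.sub hgA) hpA, iteratedDeriv_fun_sub hfA hgA,
      iteratedDeriv_const_mul_field, iteratedDeriv_fun_pow_zero, if_pos rfl]
  rw [h1] at hzero
  linear_combination hzero

lemma alg_aux (z Z A B C r R : ℂ) (hz : z ≠ 0) (hZ : Z ≠ 0) :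
    C * (R / Z) * A + r / z * B =
      C * R * (-Complex.I) * (z * Complex.I * (1 / (Z * z) * A)) +
        r * (-Complex.I) * (z * Complex.I * (1 / (z * z) * B)) := by
  have hI : Complex.I ^ 2 = -1 := Complex.I_sq
  field_simp
  linear_combination ((C * z * R * A) + Z * r * B) * hI

/-- Averaging over the circle `w ↦ (c w^k, w)`. -/
lemma avg_ineq (Φ Ψ : ℂ × ℂ → ℂ) (hΦ : DifferentiableOn ℂ Φ D) (hΨ : DifferentiableOn ℂ Ψ D)
    (a b : ℝ) (hdΦ : ∀ v, fderiv ℂ Φ 0 v = a * v.1) (hdΨ : ∀ v, fderiv ℂ Ψ 0 v = b * v.2)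
    (hpos : ∀ p ∈ D, p ≠ 0 →
      0 < (starRingEnd ℂ p.1 * Φ p + starRingEnd ℂ p.2 * Ψ p).re)
    (k : ℕ) (hk : 2 ≤ k) (c : ℂ) (ρ : ℝ) (hρ : 0 < ρ)
    (hcρ : ‖c‖ ^ 2 * ρ ^ (2 * k) + ρ ^ 2 < 1) :
    0 ≤ a * ‖c‖ ^ 2 * ρ ^ (2 * k) + b * ρ ^ 2 +
      (starRingEnd ℂ c * (iteratedDeriv k (fun w : ℂ => Φ (0, w)) 0 / k.factorial)).re *
        ρ ^ (2 * k) := by
  set γ : ℂ → ℂ × ℂ := fun w => (c * w ^ k, w) with hγ
  have hγD : ∀ w ∈ closedBall (0 : ℂ) ρ, γ w ∈ D := by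
    intro w hw
    have hw' : ‖w‖ ≤ ρ := by simpa using hw
    simp only [hγ, D, mem_ofPred_eq, norm_mul, norm_pow]
    have h1 : ‖w‖ ^ (2 * k) ≤ ρ ^ (2 * k) := pow_le_pow_left₀ (norm_nonneg _) hw' _
    have h2 : ‖w‖ ^ 2 ≤ ρ ^ 2 := pow_le_pow_left₀ (norm_nonneg _) hw' _
    have h3 : (‖c‖ * ‖w‖ ^ k) ^ 2 = ‖c‖ ^ 2 * ‖w‖ ^ (2 * k) := by ring
    rw [h3]
    have h4 : ‖c‖ ^ 2 * ‖w‖ ^ (2 * k) ≤ ‖c‖ ^ 2 * ρ ^ (2 * k) :=
      mul_le_mul_of_nonneg_left h1 (by positivity)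
    linarith
  have hdiff : ∀ (F : ℂ × ℂ → ℂ), DifferentiableOn ℂ F D →
      DifferentiableOn ℂ (fun w => F (γ w)) (closedBall 0 ρ) := by
    intro F hF w hw
    apply DifferentiableAt.differentiableWithinAt
    have h4 : DifferentiableAt ℂ F (γ w) := hF.differentiableAt (isOpen_D.mem_nhds (hγD w hw))
    exact DifferentiableAt.comp (g := F) (f := γ) w h4 (by fun_prop)
  have hf0 := hdiff Φ hΦ
  have hf1 := hdiff Ψ hΨ
  have I0 := hf0.circleIntegral_one_div_sub_center_pow_smul hρ k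
  have I1 := hf1.circleIntegral_one_div_sub_center_pow_smul hρ 1
  -- the two coefficients
  have hc0 : iteratedDeriv k (fun w => Φ (γ w)) 0 =
      iteratedDeriv k (fun w : ℂ => Φ (0, w)) 0 + a * c * k.factorial :=
    iteratedDeriv_curve Φ hΦ a 0 (by intro v; rw [hdΦ]; ring) k (by omega) c
  have hc1 : iteratedDeriv 1 (fun w => Ψ (γ w)) 0 = b := by
    rw [iteratedDeriv_one]
    have h1 : HasFDerivAt Ψ (fderiv ℂ Ψ 0) (γ 0) := by
      have : γ 0 = 0 := by simp [hγ, zero_pow (by omega : k ≠ 0)]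
      rw [this]
      exact (hΨ.differentiableAt (isOpen_D.mem_nhds zero_mem_D)).hasFDerivAt
    have h2 : HasDerivAt γ (0, 1) 0 := by
      have h3 : HasDerivAt (fun w : ℂ => c * w ^ k) 0 0 := by
        have := (hasDerivAt_pow k (0 : ℂ)).const_mul c
        simpa [zero_pow (by omega : k - 1 ≠ 0)] using this
      exact h3.prodMk (hasDerivAt_id 0)
    have h3 := h1.comp_hasDerivAt (0 : ℂ) h2
    have h4 := h3.deriv
    rw [hdΨ] at h4
    simpa [Function.comp_def] using h4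
  -- the average
  set G : ℂ → ℂ := fun w => starRingEnd ℂ (c * w ^ k) * Φ (γ w) + starRingEnd ℂ w * Ψ (γ w) with hG
  have hcm : ∀ θ : ℝ, circleMap 0 ρ θ ∈ closedBall (0 : ℂ) ρ := fun θ => by
    simp [abs_of_pos hρ]
  have hcm0 : ∀ θ : ℝ, circleMap 0 ρ θ ≠ 0 := fun θ => by
    simpa using circleMap_ne_center (c := 0) (R := ρ) (θ := θ) hρ.ne'
  have hcont0 : Continuous fun θ : ℝ => Φ (γ (circleMap 0 ρ θ)) :=
    hf0.continuousOn.comp_continuous (continuous_circleMap 0 ρ) hcm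
  have hcont1 : Continuous fun θ : ℝ => Ψ (γ (circleMap 0 ρ θ)) :=
    hf1.continuousOn.comp_continuous (continuous_circleMap 0 ρ) hcm
  have hconj : ∀ θ : ℝ, starRingEnd ℂ (circleMap 0 ρ θ) = (ρ : ℂ) ^ 2 / circleMap 0 ρ θ := by
    intro θ
    rw [eq_div_iff (hcm0 θ), mul_comm, Complex.mul_conj, Complex.normSq_eq_norm_sq]
    simp
  have hGθ : ∀ θ : ℝ, G (circleMap 0 ρ θ) =
      starRingEnd ℂ c * (ρ : ℂ) ^ (2 * k) * (-Complex.I) *
        (deriv (circleMap 0 ρ) θ • ((1 / (circleMap 0 ρ θ - 0) ^ (k + 1)) •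
          Φ (γ (circleMap 0 ρ θ)))) +
      (ρ : ℂ) ^ 2 * (-Complex.I) *
        (deriv (circleMap 0 ρ) θ • ((1 / (circleMap 0 ρ θ - 0) ^ (1 + 1)) •
          Ψ (γ (circleMap 0 ρ θ)))) := by
    intro θ
    simp only [hG, map_mul, map_pow, hconj, deriv_circleMap, sub_zero, smul_eq_mul]
    rw [div_pow, ← pow_mul, pow_succ (circleMap 0 ρ θ) k, pow_succ (circleMap 0 ρ θ) 1, pow_one]
    exact alg_aux _ _ _ _ _ _ _ (hcm0 θ) (pow_ne_zero _ (hcm0 θ))
  have hint : ∫ θ in (0 : ℝ)..(2 * Real.pi), G (circleMap 0 ρ θ) =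
      starRingEnd ℂ c * (ρ : ℂ) ^ (2 * k) * (-Complex.I) *
        ((2 * Real.pi * Complex.I / k.factorial) • iteratedDeriv k (fun w => Φ (γ w)) 0) +
      (ρ : ℂ) ^ 2 * (-Complex.I) *
        ((2 * Real.pi * Complex.I / (1 : ℕ).factorial) • iteratedDeriv 1 (fun w => Ψ (γ w)) 0) := by
    rw [← I0, ← I1]
    simp only [circleIntegral]
    rw [← intervalIntegral.integral_const_mul, ← intervalIntegral.integral_const_mul,
      ← intervalIntegral.integral_add]
    · exact intervalIntegral.integral_congr fun θ _ => hGθ θ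
    · apply Continuous.intervalIntegrable
      simp only [smul_eq_mul, deriv_circleMap]
      refine continuous_const.mul (Continuous.mul ?_ (Continuous.mul ?_ hcont0))
      · exact (continuous_circleMap 0 ρ).mul continuous_const
      · refine continuous_const.div ((continuous_circleMap 0 ρ).sub continuous_const |>.pow _) ?_
        intro θ
        simpa using hcm0 θ
    · apply Continuous.intervalIntegrable
      simp only [smul_eq_mul, deriv_circleMap]
      refine continuous_const.mul (Continuous.mul ?_ (Continuous.mul ?_ hcont1))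
      · exact (continuous_circleMap 0 ρ).mul continuous_const
      · refine continuous_const.div ((continuous_circleMap 0 ρ).sub continuous_const |>.pow _) ?_
        intro θ
        simpa using hcm0 θ
  have hGcont : Continuous fun θ : ℝ => G (circleMap 0 ρ θ) := by
    simp only [hG]
    have h1 := continuous_circleMap (0 : ℂ) ρ
    exact ((Complex.continuous_conj.comp (continuous_const.mul (h1.pow k))).mul hcont0).add
      ((Complex.continuous_conj.comp h1).mul hcont1)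
  have hnonneg : 0 ≤ (∫ θ in (0 : ℝ)..(2 * Real.pi), G (circleMap 0 ρ θ)).re := by
    have h1 := Complex.reCLM.intervalIntegral_comp_comm
      (hGcont.intervalIntegrable (μ := MeasureTheory.volume) 0 (2 * Real.pi))
    simp only [Complex.reCLM_apply] at h1
    rw [← h1]
    apply intervalIntegral.integral_nonneg (by positivity)
    intro θ _
    have h2 := hpos (γ (circleMap 0 ρ θ)) (hγD _ (hcm θ)) (by
      intro h3
      have h4 := congrArg Prod.snd h3
      exact hcm0 θ (by simpa [hγ] using h4))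
    exact h2.le
  rw [hint, hc0, hc1] at hnonneg
  have hfac : (k.factorial : ℂ) ≠ 0 := by exact_mod_cast k.factorial_ne_zero
  have hval : starRingEnd ℂ c * (ρ : ℂ) ^ (2 * k) * (-Complex.I) *
        ((2 * Real.pi * Complex.I / k.factorial) •
          (iteratedDeriv k (fun w : ℂ => Φ (0, w)) 0 + a * c * k.factorial)) +
      (ρ : ℂ) ^ 2 * (-Complex.I) *
        ((2 * Real.pi * Complex.I / (1 : ℕ).factorial) • (b : ℂ)) =
      ((2 * Real.pi : ℝ) : ℂ) * (((a * ‖c‖ ^ 2 * ρ ^ (2 * k) + b * ρ ^ 2 : ℝ) : ℂ) +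
        (starRingEnd ℂ c * (iteratedDeriv k (fun w : ℂ => Φ (0, w)) 0 / k.factorial)) *
          ((ρ ^ (2 * k) : ℝ) : ℂ)) := by
    have hcc : ((‖c‖ : ℝ) : ℂ) ^ 2 = starRingEnd ℂ c * c := by
      rw [mul_comm, Complex.mul_conj, Complex.normSq_eq_norm_sq]
      push_cast; rfl
    push_cast
    rw [hcc]
    simp only [smul_eq_mul, Nat.factorial_one, Nat.cast_one, div_one]
    field_simp
    have hI : Complex.I ^ 2 = -1 := Complex.I_sq
    ring_nf
    simp only [hI]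
    ring
  rw [hval, Complex.re_ofReal_mul, Complex.add_re, Complex.ofReal_re, Complex.re_mul_ofReal]
    at hnonneg
  have hpi : 0 < 2 * Real.pi := by positivity
  exact nonneg_of_mul_nonneg_right hnonneg hpi

/-- The coefficient inequality inside the ball. -/
lemma coeff_ineq (Φ Ψ : ℂ × ℂ → ℂ) (hΦ : DifferentiableOn ℂ Φ D) (hΨ : DifferentiableOn ℂ Ψ D)
    (a b : ℝ) (ha : 0 ≤ a) (hb : 0 ≤ b)
    (hdΦ : ∀ v, fderiv ℂ Φ 0 v = a * v.1) (hdΨ : ∀ v, fderiv ℂ Ψ 0 v = b * v.2)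
    (hpos : ∀ p ∈ D, p ≠ 0 →
      0 < (starRingEnd ℂ p.1 * Φ p + starRingEnd ℂ p.2 * Ψ p).re)
    (k : ℕ) (hk : 2 ≤ k) (x y : ℝ) (hx : 0 < x) (hy : 0 < y) (hxy : x ^ 2 + y ^ 2 < 1) :
    ‖iteratedDeriv k (fun w : ℂ => Φ (0, w)) 0 / k.factorial‖ * (x * y ^ k) ≤
      a * x ^ 2 + b * y ^ 2 := by
  set q : ℂ := iteratedDeriv k (fun w : ℂ => Φ (0, w)) 0 / k.factorial with hq
  by_cases hq0 : q = 0
  · rw [hq0, norm_zero, zero_mul]
    positivity
  have hqn : 0 < ‖q‖ := norm_pos_iff.mpr hq0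
  have hyk : 0 < y ^ k := pow_pos hy k
  set c : ℂ := -((x / (y ^ k * ‖q‖) : ℝ) : ℂ) * q with hc
  have hcn : ‖c‖ = x / y ^ k := by
    rw [hc, norm_mul, norm_neg, Complex.norm_real, Real.norm_eq_abs, abs_of_pos (by positivity)]
    field_simp
  have hcn2 : ‖c‖ ^ 2 * y ^ (2 * k) = x ^ 2 := by
    rw [hcn, mul_comm 2 k, pow_mul]
    field_simp
  have h := avg_ineq Φ Ψ hΦ hΨ a b hdΦ hdΨ hpos k hk c y hy (by rw [hcn2]; exact hxy)
  rw [← hq] at h
  have h2 : (starRingEnd ℂ c * q).re * y ^ (2 * k) = -(‖q‖ * (x * y ^ k)) := by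
    have h3 : starRingEnd ℂ c * q = ((-(x / (y ^ k * ‖q‖)) * ‖q‖ ^ 2 : ℝ) : ℂ) := by
      rw [hc, map_mul, map_neg, Complex.conj_ofReal]
      have h4 : starRingEnd ℂ q * q = ((‖q‖ ^ 2 : ℝ) : ℂ) := by
        rw [mul_comm, Complex.mul_conj, Complex.normSq_eq_norm_sq]
      rw [mul_assoc, h4]
      push_cast
      ring
    rw [h3, Complex.ofReal_re, mul_comm 2 k, pow_mul]
    field_simp
  rw [h2] at h
  have h5 : a * ‖c‖ ^ 2 * y ^ (2 * k) = a * x ^ 2 := by rw [mul_assoc, hcn2]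
  rw [h5] at h
  linarith

/-- The coefficient inequality on the sphere. -/
lemma coeff_ineq_sphere (Φ Ψ : ℂ × ℂ → ℂ) (hΦ : DifferentiableOn ℂ Φ D)
    (hΨ : DifferentiableOn ℂ Ψ D)
    (a b : ℝ) (ha : 0 ≤ a) (hb : 0 ≤ b)
    (hdΦ : ∀ v, fderiv ℂ Φ 0 v = a * v.1) (hdΨ : ∀ v, fderiv ℂ Ψ 0 v = b * v.2)
    (hpos : ∀ p ∈ D, p ≠ 0 →
      0 < (starRingEnd ℂ p.1 * Φ p + starRingEnd ℂ p.2 * Ψ p).re)
    (k : ℕ) (hk : 2 ≤ k) (x y : ℝ) (hx : 0 < x) (hy : 0 < y) (hxy : x ^ 2 + y ^ 2 = 1) :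
    ‖iteratedDeriv k (fun w : ℂ => Φ (0, w)) 0 / k.factorial‖ * (x * y ^ k) ≤
      a * x ^ 2 + b * y ^ 2 := by
  set Q : ℝ := ‖iteratedDeriv k (fun w : ℂ => Φ (0, w)) 0 / k.factorial‖ with hQ
  have hmem : (1 : ℝ) ∈ closure (Ioo (0 : ℝ) 1) := by
    rw [closure_Ioo (by norm_num)]
    exact ⟨by norm_num, le_rfl⟩
  have h := ContinuousWithinAt.closure_le (f := fun r : ℝ => Q * ((r * x) * (r * y) ^ k))
    (g := fun r : ℝ => a * (r * x) ^ 2 + b * (r * y) ^ 2) hmem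
    (by fun_prop) (by fun_prop) (fun r hr => by
      apply coeff_ineq Φ Ψ hΦ hΨ a b ha hb hdΦ hdΨ hpos k hk (r * x) (r * y)
        (mul_pos hr.1 hx) (mul_pos hr.1 hy)
      have h1 : (r * x) ^ 2 + (r * y) ^ 2 = r ^ 2 * (x ^ 2 + y ^ 2) := by ring
      rw [h1, hxy, mul_one]
      have h2 := hr.1
      have h3 := hr.2
      nlinarith)
  simpa using h

/-! ### The two optimisation problems -/

/-- The minimum for the first problem: for `X + Y = 1`. -/
lemma opt_one (mu : ℝ) (hmu : 0 ≤ mu) (k : ℕ) (hk : 2 ≤ k) (u : ℝ) (hu0 : 0 < u)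
    (hu : mu * (k - 1) * u ^ 2 + (mu + k + 1) * u - 1 = 0) (t : ℝ) (ht0 : 0 ≤ t) (ht1 : t ≤ 1) :
    (1 + mu * u) ^ 2 * (t * (1 - t) ^ k) ≤ (1 + mu * t) ^ 2 * (u * (1 - u) ^ k) := by
  have hk' : (2 : ℝ) ≤ k := by exact_mod_cast hk
  have hku : k * u < 1 := by
    have h1 : 0 ≤ mu * (k - 1) * u ^ 2 := by
      have : 0 ≤ (k : ℝ) - 1 := by linarith
      positivity
    have h2 : 0 ≤ mu * u := by positivity
    nlinarith
  have hu1 : u < 1 := by nlinarith
  rcases eq_or_lt_of_le ht1 with h1 | h1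
  · have h2 : (1 - t) ^ k = 0 := by rw [h1]; simp; omega
    rw [h2, mul_zero, mul_zero]
    have : 0 ≤ (1 - u) ^ k := pow_nonneg (by linarith) _
    positivity
  · -- Bernoulli
    have ht : 0 < 1 - t := by linarith
    have hb := one_add_mul_le_pow (a := (t - u) / (1 - t)) (by
      rw [le_div_iff₀ ht]; nlinarith) k
    have h2 : 1 + (t - u) / (1 - t) = (1 - u) / (1 - t) := by field_simp; ring
    rw [h2, div_pow] at hb
    have hpk : 0 < (1 - t) ^ k := pow_pos ht k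
    rw [le_div_iff₀ hpk] at hb
    -- polynomial inequality
    have hpoly : (1 + mu * u) ^ 2 * (t * (1 - t)) ≤
        (1 + mu * t) ^ 2 * u * ((1 - t) + k * (t - u)) := by
      have hid : (1 + mu * t) ^ 2 * u * ((1 - t) + k * (t - u)) -
          (1 + mu * u) ^ 2 * (t * (1 - t)) =
          (t - u) ^ 2 * ((k - 1) * mu ^ 2 * u * t + (1 - k * u) / u) := by
        field_simp
        linear_combination ((1 + mu * u) * t * (t - u)) * hu
      have hnn : 0 ≤ (t - u) ^ 2 * ((k - 1) * mu ^ 2 * u * t + (1 - k * u) / u) := by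
        have h3 : 0 ≤ (k : ℝ) - 1 := by linarith
        have h4 : 0 ≤ 1 - k * u := by linarith
        positivity
      linarith
    have h5 : (1 + mu * u) ^ 2 * (t * (1 - t) ^ k) * (1 - t) ≤
        (1 + mu * t) ^ 2 * (u * (1 - u) ^ k) * (1 - t) := by
      calc (1 + mu * u) ^ 2 * (t * (1 - t) ^ k) * (1 - t)
          = ((1 + mu * u) ^ 2 * (t * (1 - t))) * (1 - t) ^ k := by ring
        _ ≤ ((1 + mu * t) ^ 2 * u * ((1 - t) + k * (t - u))) * (1 - t) ^ k :=
            mul_le_mul_of_nonneg_right hpoly hpk.le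
        _ = (1 + mu * t) ^ 2 * u * (1 - t) * ((1 + k * ((t - u) / (1 - t))) * (1 - t) ^ k) := by
            field_simp
        _ ≤ (1 + mu * t) ^ 2 * u * (1 - t) * (1 - u) ^ k :=
            mul_le_mul_of_nonneg_left hb (by positivity)
        _ = (1 + mu * t) ^ 2 * (u * (1 - u) ^ k) * (1 - t) := by ring
    exact le_of_mul_le_mul_right h5 ht

/-- The minimum for the second problem. -/
lemma opt_two (lam : ℝ) (hl1 : 1 ≤ lam) (k : ℕ) (hk : 2 ≤ k) (v : ℝ)
    (hv0 : 0 < v) (hkv : k * v ≤ 1)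
    (hv : (lam - 1) * (k - 1) * v ^ 2 - (k * lam + 1) * v + lam = 0)
    (t : ℝ) (ht0 : 0 ≤ t) (ht1 : t ≤ 1) :
    (lam - (lam - 1) * v) ^ 2 * (t * (1 - t) ^ k) ≤
      (lam - (lam - 1) * t) ^ 2 * (v * (1 - v) ^ k) := by
  have hk' : (2 : ℝ) ≤ k := by exact_mod_cast hk
  have hv1 : v < 1 := by nlinarith
  rcases eq_or_lt_of_le ht1 with h1 | h1
  · have h2 : (1 - t) ^ k = 0 := by rw [h1]; simp; omega
    rw [h2, mul_zero, mul_zero]
    have : 0 ≤ (1 - v) ^ k := pow_nonneg (by linarith) _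
    positivity
  · have ht : 0 < 1 - t := by linarith
    have hb := one_add_mul_le_pow (a := (t - v) / (1 - t)) (by
      rw [le_div_iff₀ ht]; nlinarith) k
    have h2 : 1 + (t - v) / (1 - t) = (1 - v) / (1 - t) := by field_simp; ring
    rw [h2, div_pow] at hb
    have hpk : 0 < (1 - t) ^ k := pow_pos ht k
    rw [le_div_iff₀ hpk] at hb
    have hpoly : (lam - (lam - 1) * v) ^ 2 * (t * (1 - t)) ≤
        (lam - (lam - 1) * t) ^ 2 * v * ((1 - t) + k * (t - v)) := by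
      have hid : (lam - (lam - 1) * t) ^ 2 * v * ((1 - t) + k * (t - v)) -
          (lam - (lam - 1) * v) ^ 2 * (t * (1 - t)) =
          (t - v) ^ 2 * ((k - 1) * (lam - 1) ^ 2 * v * t + (1 - k * v) * lam ^ 2 / v) := by
        field_simp
        linear_combination (((lam - 1) * v - lam) * t * (t - v)) * hv
      have hnn : 0 ≤ (t - v) ^ 2 * ((k - 1) * (lam - 1) ^ 2 * v * t +
          (1 - k * v) * lam ^ 2 / v) := by
        have h3 : 0 ≤ (k : ℝ) - 1 := by linarith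
        have h4 : 0 ≤ 1 - k * v := by linarith
        positivity
      linarith
    have h5 : (lam - (lam - 1) * v) ^ 2 * (t * (1 - t) ^ k) * (1 - t) ≤
        (lam - (lam - 1) * t) ^ 2 * (v * (1 - v) ^ k) * (1 - t) := by
      calc (lam - (lam - 1) * v) ^ 2 * (t * (1 - t) ^ k) * (1 - t)
          = ((lam - (lam - 1) * v) ^ 2 * (t * (1 - t))) * (1 - t) ^ k := by ring
        _ ≤ ((lam - (lam - 1) * t) ^ 2 * v * ((1 - t) + k * (t - v))) * (1 - t) ^ k :=
            mul_le_mul_of_nonneg_right hpoly hpk.le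
        _ = (lam - (lam - 1) * t) ^ 2 * v * (1 - t) *
              ((1 + k * ((t - v) / (1 - t))) * (1 - t) ^ k) := by
            field_simp
        _ ≤ (lam - (lam - 1) * t) ^ 2 * v * (1 - t) * (1 - v) ^ k :=
            mul_le_mul_of_nonneg_left hb (by positivity)
        _ = (lam - (lam - 1) * t) ^ 2 * (v * (1 - v) ^ k) * (1 - t) := by ring
    exact le_of_mul_le_mul_right h5 ht

/-- From the optimisation on the sphere to strict positivity in the ball. -/
lemma strict_of_opt (a b B : ℝ) (ha : 0 < a) (hb : 0 < b) (k : ℕ) (hk : 2 ≤ k)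
    (h : ∀ t : ℝ, 0 ≤ t → t ≤ 1 → B ^ 2 * (t * (1 - t) ^ k) ≤ (a * t + b * (1 - t)) ^ 2)
    (X Y : ℝ) (hX : 0 ≤ X) (hY : 0 ≤ Y) (h0 : 0 < X ^ 2 + Y ^ 2) (h1 : X ^ 2 + Y ^ 2 < 1) :
    B * (X * Y ^ k) < a * X ^ 2 + b * Y ^ 2 := by
  set S : ℝ := X ^ 2 + Y ^ 2 with hS
  have hpos : 0 < a * X ^ 2 + b * Y ^ 2 := by
    rcases eq_or_lt_of_le hX with hx | hx
    · have : 0 < Y ^ 2 := by rw [hS, ← hx] at h0; simpa using h0
      positivity
    · positivity
  have ht := h (X ^ 2 / S) (by positivity) (by rw [div_le_one h0]; nlinarith [sq_nonneg Y])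
  have h2 : 1 - X ^ 2 / S = Y ^ 2 / S := by field_simp; rw [hS]; ring
  rw [h2] at ht
  have h3 : (B * (X * Y ^ k)) ^ 2 ≤ S ^ (k - 1) * (a * X ^ 2 + b * Y ^ 2) ^ 2 := by
    have h4 : (B * (X * Y ^ k)) ^ 2 = S ^ (k + 1) * (B ^ 2 * (X ^ 2 / S * (Y ^ 2 / S) ^ k)) := by
      rw [div_pow, pow_succ]
      have : S ^ k ≠ 0 := by positivity
      field_simp
      ring
    have h5 : S ^ (k - 1) * (a * X ^ 2 + b * Y ^ 2) ^ 2 =
        S ^ (k + 1) * (a * (X ^ 2 / S) + b * (Y ^ 2 / S)) ^ 2 := by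
      have h6 : k + 1 = (k - 1) + 2 := by omega
      rw [h6, pow_add]
      field_simp
    rw [h4, h5]
    exact mul_le_mul_of_nonneg_left ht (by positivity)
  have h7 : S ^ (k - 1) < 1 := pow_lt_one₀ h0.le h1 (by omega)
  have h8 : (B * (X * Y ^ k)) ^ 2 < (a * X ^ 2 + b * Y ^ 2) ^ 2 := by
    have h9 : 0 < (a * X ^ 2 + b * Y ^ 2) ^ 2 := by positivity
    nlinarith
  exact lt_of_pow_lt_pow_left₀ 2 hpos.le h8

end Pool.Agent.H59.Cara
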