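import Pool.Agent.H29.ChordalDefs

set_option autoImplicit false

namespace Pool.Agent.H59.ChordalLower

open Pool.Agent.H29.Chordal

/-- Split graphs are chordal. -/
lemma split_chordal {V : Type*} (G : SimpleGraph V) (K : Set V)
    (hK : ∀ u ∈ K, ∀ v ∈ K, u ≠ v → G.Adj u v) (hI : ∀ u v, G.Adj u v → u ∈ K ∨ v ∈ K) :
    IsChordal G := by
  intro v c hc hlen
  have hinj : ∀ p q, p ≤ c.length → q ≤ c.length → c.getVert p = c.getVert q →
      p = q ∨ (p = 0 ∧ q = c.length) ∨ (p = c.length ∧ q = 0) := by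
    intro p q hp hq hpq
    have h1 := hc.getVert_injOn
    have hend : c.getVert c.length = c.getVert 0 := by simp
    rcases Nat.eq_zero_or_pos p with h0 | h0 <;> rcases Nat.eq_zero_or_pos q with h0' | h0'
    · left; omega
    · right; left
      refine ⟨h0, ?_⟩
      subst h0
      rw [← hend] at hpq
      exact (h1 ⟨by omega, le_rfl⟩ ⟨h0', hq⟩ hpq).symm
    · right; right
      refine ⟨?_, h0'⟩
      subst h0'
      rw [← hend] at hpq
      exact h1 ⟨h0, hp⟩ ⟨by omega, le_rfl⟩ hpq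
    · left
      exact h1 ⟨h0, hp⟩ ⟨h0', hq⟩ hpq
  have key : ∀ i, i + 2 ≤ c.length → c.getVert i ∈ K → c.getVert (i + 2) ∈ K →
      ∃ e, c.IsChord e := by
    intro i hi h1 h2
    refine ⟨s(c.getVert i, c.getVert (i + 2)), SimpleGraph.Walk.isChord_sym2Mk.mpr
      ⟨hK _ h1 _ h2 ?_, ?_, c.getVert_mem_support i, c.getVert_mem_support (i + 2)⟩⟩
    · intro h
      have := hinj i (i + 2) (by omega) hi h
      omega
    · intro h
      rw [SimpleGraph.Walk.mk_mem_edges_iff_exists] at h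
      obtain ⟨j, hj, hs⟩ := h
      rw [Sym2.eq_iff] at hs
      rcases hs with ⟨ha, hb⟩ | ⟨ha, hb⟩
      · have h3 := hinj _ _ (by omega) (by omega) ha
        have h4 := hinj _ _ (by omega) (by omega) hb
        omega
      · have h3 := hinj _ _ (by omega) (by omega) ha
        have h4 := hinj _ _ (by omega) (by omega) hb
        omega
  have hadj : ∀ i, i < c.length → c.getVert i ∈ K ∨ c.getVert (i + 1) ∈ K := fun i hi =>
    hI _ _ (c.adj_getVert_succ hi)
  by_cases h0 : c.getVert 0 ∈ K ∧ c.getVert 2 ∈ K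
  · exact key 0 (by omega) h0.1 h0.2
  by_cases h1 : c.getVert 1 ∈ K ∧ c.getVert 3 ∈ K
  · exact key 1 (by omega) h1.1 h1.2
  by_cases h2 : c.getVert 2 ∈ K ∧ c.getVert 4 ∈ K
  · exact key 2 (by omega) h2.1 h2.2
  exfalso
  have e0 := hadj 0 (by omega)
  have e1 := hadj 1 (by omega)
  have e2 := hadj 2 (by omega)
  have e3 := hadj 3 (by omega)
  simp only [zero_add, Nat.reduceAdd] at e0 e1 e2 e3
  tauto

section graph

variable {P B : Type} (inc : P → B → Prop) (p0 : P) (mu s : ℕ)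

/-- Adjacency of the split graph. -/
def gadj : P ⊕ ((B × Fin mu) ⊕ Fin s) → P ⊕ ((B × Fin mu) ⊕ Fin s) → Prop
  | Sum.inl p, Sum.inl p' => p ≠ p'
  | Sum.inl p, Sum.inr (Sum.inl b) => inc p b.1
  | Sum.inr (Sum.inl b), Sum.inl p => inc p b.1
  | Sum.inl p, Sum.inr (Sum.inr _) => p = p0
  | Sum.inr (Sum.inr _), Sum.inl p => p = p0
  | Sum.inr _, Sum.inr _ => False

/-- The split graph. -/
def splitG : SimpleGraph (P ⊕ ((B × Fin mu) ⊕ Fin s)) where
  Adj := gadj inc p0 mu s
  symm := by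
    constructor
    intro a b h
    rcases a with a | a | a <;> rcases b with b | b | b <;> simp_all [gadj]
    exact fun h' => h h'.symm
  loopless := by
    constructor
    intro a h
    rcases a with a | a | a <;> simp_all [gadj]

variable [Fintype P] [Fintype B]

lemma ncard_sum {X Y : Type*} [Finite X] [Finite Y] (Q : X ⊕ Y → Prop) :
    {v | Q v}.ncard = {x | Q (Sum.inl x)}.ncard + {y | Q (Sum.inr y)}.ncard := by
  have h : {v | Q v} = Sum.inl '' {x | Q (Sum.inl x)} ∪ Sum.inr '' {y | Q (Sum.inr y)} := by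
    ext v
    rcases v with v | v <;> simp
  rw [h, Set.ncard_union_eq, Set.ncard_image_of_injective _ Sum.inl_injective,
    Set.ncard_image_of_injective _ Sum.inr_injective]
  · rw [Set.disjoint_left]
    rintro v ⟨x, _, rfl⟩ ⟨y, _, h⟩
    exact absurd h (by simp)

lemma deg_point (p : P) :
    ((splitG inc p0 mu s).neighborSet (Sum.inl p)).ncard =
      (Fintype.card P - 1) + ({b | inc p b}.ncard * mu + {_x : Fin s | p = p0}.ncard) := by
  have h : (splitG inc p0 mu s).neighborSet (Sum.inl p) =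
      {v | gadj inc p0 mu s (Sum.inl p) v} := rfl
  rw [h, ncard_sum, ncard_sum]
  congr 1
  · have h1 : {x | gadj inc p0 mu s (Sum.inl p) (Sum.inl x)} = {p}ᶜ := by
      ext x
      simp [gadj, eq_comm]
    rw [h1, Set.ncard_compl, Set.ncard_singleton, Nat.card_eq_fintype_card]
  · congr 1
    have h1 : {x | gadj inc p0 mu s (Sum.inl p) (Sum.inr (Sum.inl x))} =
        {b | inc p b} ×ˢ (Set.univ : Set (Fin mu)) := by
      ext x
      simp [gadj]
    rw [h1, Set.ncard_prod, Set.ncard_univ, Nat.card_eq_fintype_card, Fintype.card_fin]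

lemma deg_block (b : B × Fin mu) :
    ((splitG inc p0 mu s).neighborSet (Sum.inr (Sum.inl b))).ncard = {p | inc p b.1}.ncard := by
  have h : (splitG inc p0 mu s).neighborSet (Sum.inr (Sum.inl b)) =
      {v | gadj inc p0 mu s (Sum.inr (Sum.inl b)) v} := rfl
  rw [h, ncard_sum]
  have h1 : {y | gadj inc p0 mu s (Sum.inr (Sum.inl b)) (Sum.inr y)} = ∅ := by
    ext y
    simp [gadj]
  rw [h1, Set.ncard_empty, add_zero]
  rfl

lemma deg_pendant (x : Fin s) :
    ((splitG inc p0 mu s).neighborSet (Sum.inr (Sum.inr x))).ncard = 1 := by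
  have h : (splitG inc p0 mu s).neighborSet (Sum.inr (Sum.inr x)) =
      {v | gadj inc p0 mu s (Sum.inr (Sum.inr x)) v} := rfl
  rw [h, ncard_sum]
  have h1 : {y | gadj inc p0 mu s (Sum.inr (Sum.inr x)) (Sum.inr y)} = ∅ := by
    ext y
    simp [gadj]
  have h2 : {y | gadj inc p0 mu s (Sum.inr (Sum.inr x)) (Sum.inl y)} = {p0} := by
    ext y
    simp [gadj]
  rw [h1, h2, Set.ncard_empty, add_zero, Set.ncard_singleton]

/-- The finite graph obtained from an incidence structure. -/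
lemma split_lower {P B : Type} [Fintype P] [Fintype B] (inc : P → B → Prop) (p0 : P)
    (n D : ℕ) (hmeet : ∀ b b', ∃ p, inc p b ∧ inc p b')
    (hn : ∀ p, {b | inc p b}.ncard = n) (hl : ∀ b, {p | inc p b}.ncard ≤ D)
    (hkD : Fintype.card P - 1 ≤ D) (hD : 1 ≤ D) :
    ∃ (N : ℕ) (G : SimpleGraph (Fin N)), IsChordal G ∧ HasMaxDegree G D ∧
      ∀ k f, IsL21Labelling G k f →
        Fintype.card B * ((D - (Fintype.card P - 1)) / n) ≤ k + 1 := by
  classical
  set mu : ℕ := (D - (Fintype.card P - 1)) / n with hmu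
  set s : ℕ := D - (Fintype.card P - 1) - n * mu with hs
  have hnmu : n * mu ≤ D - (Fintype.card P - 1) := Nat.mul_div_le _ _
  set V := P ⊕ ((B × Fin mu) ⊕ Fin s) with hV
  set G0 : SimpleGraph V := splitG inc p0 mu s with hG0
  set e : V ≃ Fin (Fintype.card V) := Fintype.equivFin V with he
  set G : SimpleGraph (Fin (Fintype.card V)) := G0.comap e.symm with hG
  have hadj : ∀ a b, G.Adj a b ↔ G0.Adj (e.symm a) (e.symm b) := fun a b => Iff.rfl
  have hdeg : ∀ a, (G.neighborSet a).ncard = (G0.neighborSet (e.symm a)).ncard := by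
    intro a
    have h1 : G0.neighborSet (e.symm a) = e.symm '' (G.neighborSet a) := by
      ext v
      simp only [SimpleGraph.mem_neighborSet, Set.mem_image]
      constructor
      · intro h
        exact ⟨e v, by rw [hadj]; simpa using h, by simp⟩
      · rintro ⟨b, hb, rfl⟩
        exact (hadj _ _).mp hb
    rw [h1, Set.ncard_image_of_injective _ e.symm.injective]
  refine ⟨Fintype.card V, G, ?_, ?_, ?_⟩
  · apply split_chordal G {a | ∃ p, e.symm a = Sum.inl p}
    · rintro a ⟨p, hp⟩ b ⟨p', hp'⟩ hab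
      rw [hadj, hp, hp']
      change p ≠ p'
      rintro rfl
      exact hab (e.symm.injective (hp.trans hp'.symm))
    · intro a b h
      rw [hadj] at h
      by_contra hcon
      push Not at hcon
      obtain ⟨h1, h2⟩ := hcon
      rcases hx : e.symm a with x | x
      · exact h1 ⟨x, hx⟩
      · rcases hy : e.symm b with y | y
        · exact h2 ⟨y, hy⟩
        · rw [hx, hy] at h
          rcases x with x | x <;> rcases y with y | y <;> exact h
  · constructor
    · intro a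
      rw [hdeg]
      rcases e.symm a with p | b | x
      · rw [deg_point, hn]
        have : {_x : Fin s | p = p0}.ncard ≤ s := by
          refine (Set.ncard_le_card _).trans ?_
          simp
        omega
      · rw [deg_block]
        exact hl _
      · rw [deg_pendant]
        exact hD
    · refine ⟨e (Sum.inl p0), ?_⟩
      rw [hdeg, Equiv.symm_apply_apply, deg_point, hn]
      have : {_x : Fin s | p0 = p0}.ncard = s := by
        simp [Set.ncard_univ]
      omega
  · intro k f hf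
    have hinj : Function.Injective (fun b : B × Fin mu => f (e (Sum.inr (Sum.inl b)))) := by
      intro b b' hbb
      by_contra hne
      have hdist : G.dist (e (Sum.inr (Sum.inl b))) (e (Sum.inr (Sum.inl b'))) = 2 := by
        have h2 : G.edist (e (Sum.inr (Sum.inl b))) (e (Sum.inr (Sum.inl b'))) = 2 := by
          rw [SimpleGraph.edist_eq_two_iff]
          refine ⟨?_, ?_, ?_⟩
          · intro h
            exact hne (Sum.inl_injective (Sum.inr_injective (e.injective h)))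
          · rw [hadj, Equiv.symm_apply_apply, Equiv.symm_apply_apply]
            exact fun h => h
          · obtain ⟨p, hp, hp'⟩ := hmeet b.1 b'.1
            refine ⟨e (Sum.inl p), ?_⟩
            rw [SimpleGraph.mem_commonNeighbors, hadj, hadj, Equiv.symm_apply_apply,
              Equiv.symm_apply_apply, Equiv.symm_apply_apply]
            exact ⟨hp, hp'⟩
        rw [SimpleGraph.dist, h2]
        rfl
      exact hf.2.2 _ _ hdist hbb
    have h1 : Fintype.card (B × Fin mu) ≤ Fintype.card (Fin (k + 1)) := by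
      apply Fintype.card_le_of_injective
        (fun b : B × Fin mu => (⟨f (e (Sum.inr (Sum.inl b))), Nat.lt_succ_of_le (hf.1 _)⟩ : Fin (k + 1)))
      intro b b' h
      apply hinj
      simpa using h
    simpa [Fintype.card_prod] using h1

end graph

/-- For every `D` there is a finite chordal graph of maximum degree `D`. -/
theorem exists_chordal (D : ℕ) :
    ∃ (n : ℕ) (G : SimpleGraph (Fin n)), IsChordal G ∧ HasMaxDegree G D := by
  rcases Nat.eq_zero_or_pos D with h | h
  · subst h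
    refine ⟨1, ⊥, split_chordal _ Set.univ (fun u _ v _ huv => absurd (Subsingleton.elim u v) huv)
      (fun u v _ => Or.inl trivial), fun v => ?_, 0, ?_⟩
    · have : (⊥ : SimpleGraph (Fin 1)).neighborSet v = ∅ := by ext w; simp
      rw [this, Set.ncard_empty]
    · have : (⊥ : SimpleGraph (Fin 1)).neighborSet 0 = ∅ := by ext w; simp
      rw [this, Set.ncard_empty]
  · obtain ⟨n, G, h1, h2, -⟩ := split_lower (P := Unit) (B := Empty) (fun _ _ => True) () 0 D
      (fun b => b.elim) (fun p => by simp) (fun b => b.elim) (by simp) h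
    exact ⟨n, G, h1, h2⟩

section fields

/-- Incidence of the dual affine plane over a field. -/
def fInc (F : Type) [Field F] : (Option F × F) → (F × F) → Prop
  | (some x, y), (m, c) => y = m * x + c
  | (none, y), (m, _) => y = m

lemma fInc_meet (F : Type) [Field F] (b b' : F × F) : ∃ p, fInc F p b ∧ fInc F p b' := by
  obtain ⟨m, c⟩ := b
  obtain ⟨m', c'⟩ := b'
  by_cases h : m = m'
  · subst h
    exact ⟨(none, m), rfl, rfl⟩
  · have h' : m - m' ≠ 0 := sub_ne_zero.mpr h
    refine ⟨(some ((c' - c) / (m - m')), m * ((c' - c) / (m - m')) + c), rfl, ?_⟩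
    change m * ((c' - c) / (m - m')) + c = m' * ((c' - c) / (m - m')) + c'
    field_simp
    ring

lemma fInc_blocks (F : Type) [Field F] [Fintype F] (p : Option F × F) :
    {b | fInc F p b}.ncard = Fintype.card F := by
  obtain ⟨o, y⟩ := p
  rcases o with _ | x
  · have : {b : F × F | fInc F (none, y) b} = (fun c : F => (y, c)) '' Set.univ := by
      ext ⟨m, c⟩
      simp [fInc, eq_comm]
    rw [this, Set.ncard_image_of_injective _ (fun a b h => by simpa using h), Set.ncard_univ,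
      Nat.card_eq_fintype_card]
  · have : {b : F × F | fInc F (some x, y) b} = (fun m : F => (m, y - m * x)) '' Set.univ := by
      ext ⟨m, c⟩
      simp only [fInc, Set.mem_ofPred_eq, Set.mem_image, Set.mem_univ, true_and, Prod.mk.injEq,
        exists_eq_left]
      constructor
      · intro h; rw [h]; ring
      · intro h; rw [← h]; ring
    rw [this, Set.ncard_image_of_injective _ (fun a b h => by simpa using (Prod.ext_iff.mp h).1),
      Set.ncard_univ, Nat.card_eq_fintype_card]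

lemma fInc_points (F : Type) [Field F] [Fintype F] (b : F × F) :
    {p | fInc F p b}.ncard = Fintype.card F + 1 := by
  obtain ⟨m, c⟩ := b
  have : {p : Option F × F | fInc F p (m, c)} =
      (fun o : Option F => (o, match o with | some x => m * x + c | none => m)) '' Set.univ := by
    ext ⟨o, y⟩
    rcases o with _ | x
    · simp [fInc, eq_comm]
    · simp [fInc, eq_comm]
  rw [this, Set.ncard_image_of_injective _ (fun a b h => (Prod.ext_iff.mp h).1),
      Set.ncard_univ, Nat.card_eq_fintype_card, Fintype.card_option]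

/-- The product incidence structure. -/
def pInc (F1 F2 : Type) [Field F1] [Field F2] :
    ((Option F1 × F1) × (Option F2 × F2)) → ((F1 × F1) × (F2 × F2)) → Prop :=
  fun p b => fInc F1 p.1 b.1 ∧ fInc F2 p.2 b.2

lemma exists_graph (q1 q2 : ℕ) (h1 : ∃ (F : Type) (_ : Field F) (_ : Fintype F), Fintype.card F = q1)
    (h2 : ∃ (F : Type) (_ : Field F) (_ : Fintype F), Fintype.card F = q2) (D : ℕ)
    (hD : (q1 + 1) * q1 * ((q2 + 1) * q2) ≤ D) :
    ∃ (N : ℕ) (G : SimpleGraph (Fin N)), IsChordal G ∧ HasMaxDegree G D ∧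
      ∀ k f, IsL21Labelling G k f →
        (q1 * q2) ^ 2 * ((D - ((q1 + 1) * q1 * ((q2 + 1) * q2) - 1)) / (q1 * q2)) ≤ k + 1 := by
  classical
  obtain ⟨F1, _, _, hF1⟩ := h1
  obtain ⟨F2, _, _, hF2⟩ := h2
  have hq1 : 1 ≤ q1 := by rw [← hF1]; exact Fintype.card_pos
  have hq2 : 1 ≤ q2 := by rw [← hF2]; exact Fintype.card_pos
  have hcardP : Fintype.card ((Option F1 × F1) × (Option F2 × F2)) =
      (q1 + 1) * q1 * ((q2 + 1) * q2) := by
    simp [Fintype.card_prod, Fintype.card_option, hF1, hF2]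
  have hcardB : Fintype.card ((F1 × F1) × (F2 × F2)) = (q1 * q2) ^ 2 := by
    simp only [Fintype.card_prod, hF1, hF2]
    ring
  have hprod : ∀ p : ((Option F1 × F1) × (Option F2 × F2)), {b | pInc F1 F2 p b} =
      {b | fInc F1 p.1 b} ×ˢ {b | fInc F2 p.2 b} := by
    intro p; ext b; simp [pInc]
  have hprod2 : ∀ b : ((F1 × F1) × (F2 × F2)), {p | pInc F1 F2 p b} =
      {p | fInc F1 p b.1} ×ˢ {p | fInc F2 p b.2} := by
    intro p; ext b; simp [pInc]
  have hbig : 1 ≤ (q1 + 1) * q1 * ((q2 + 1) * q2) := Nat.one_le_iff_ne_zero.mpr (by positivity)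
  have key := split_lower (pInc F1 F2) ((none, 0), (none, 0)) (q1 * q2) D
    (by
      intro b b'
      obtain ⟨p1, h1, h1'⟩ := fInc_meet F1 b.1 b'.1
      obtain ⟨p2, h2, h2'⟩ := fInc_meet F2 b.2 b'.2
      exact ⟨(p1, p2), ⟨h1, h2⟩, ⟨h1', h2'⟩⟩)
    (by
      intro p
      rw [hprod, Set.ncard_prod, fInc_blocks, fInc_blocks, hF1, hF2])
    (by
      intro b
      rw [hprod2, Set.ncard_prod, fInc_points, fInc_points, hF1, hF2]
      refine le_trans ?_ hD
      calc (q1 + 1) * (q2 + 1) = (q1 + 1) * 1 * ((q2 + 1) * 1) := by ring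
        _ ≤ (q1 + 1) * q1 * ((q2 + 1) * q2) := by gcongr)
    (by rw [hcardP]; omega) (hbig.trans hD)
  rw [hcardP, hcardB] at key
  exact key

end fields

section density

/-- One-sided density: if `r = p^u / q^v` lies in `(1, 1 + eta)` then every large real is
well approximated from below by some `p^a * q^b` with `a, b ≥ L`. -/
lemma dense_of_ratio (p q : ℕ) (hp : 2 ≤ p) (hq : 2 ≤ q) (eta : ℝ)
    (u v : ℕ) (h1 : (q : ℝ) ^ v < (p : ℝ) ^ u) (h2 : (p : ℝ) ^ u < (1 + eta) * (q : ℝ) ^ v)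
    (L : ℕ) : ∃ X : ℝ, ∀ x : ℝ, X ≤ x → ∃ a b : ℕ, L ≤ a ∧ L ≤ b ∧
      (p : ℝ) ^ a * (q : ℝ) ^ b ≤ x ∧ x ≤ (1 + eta) * ((p : ℝ) ^ a * (q : ℝ) ^ b) := by
  have hp' : (1 : ℝ) < p := by exact_mod_cast (by omega : 1 < p)
  have hq' : (1 : ℝ) < q := by exact_mod_cast (by omega : 1 < q)
  have hqv : 0 < (q : ℝ) ^ v := by positivity
  set r : ℝ := (p : ℝ) ^ u / (q : ℝ) ^ v with hr
  have hr1 : 1 < r := by rw [hr, one_lt_div hqv]; exact h1
  have hr2 : r < 1 + eta := by rw [hr, div_lt_iff₀ hqv]; exact h2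
  obtain ⟨N, hN⟩ := pow_unbounded_of_one_lt (p : ℝ) hr1
  set b0 : ℕ := v * N + L with hb0
  refine ⟨(p : ℝ) ^ L * (q : ℝ) ^ b0, fun x hx => ?_⟩
  have hq0 : 0 < (q : ℝ) ^ b0 := by positivity
  -- the largest `a` with `p^a q^b0 ≤ x`
  have hex : ∃ a, x < (p : ℝ) ^ a * (q : ℝ) ^ b0 := by
    obtain ⟨a, ha⟩ := pow_unbounded_of_one_lt (x / (q : ℝ) ^ b0) hp'
    exact ⟨a, by rwa [div_lt_iff₀ hq0] at ha⟩
  classical
  set a1 := Nat.find hex with ha1
  have ha1s := Nat.find_spec hex
  rw [← ha1] at ha1s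
  have hLa : L < a1 := by
    by_contra hcon
    push Not at hcon
    have : (p : ℝ) ^ a1 ≤ (p : ℝ) ^ L := pow_le_pow_right₀ hp'.le hcon
    have h3 : (p : ℝ) ^ a1 * (q : ℝ) ^ b0 ≤ (p : ℝ) ^ L * (q : ℝ) ^ b0 :=
      mul_le_mul_of_nonneg_right this hq0.le
    linarith
  obtain ⟨a, haa⟩ : ∃ a, a1 = a + 1 := ⟨a1 - 1, by omega⟩
  rw [haa] at ha1s
  have ha : (p : ℝ) ^ a * (q : ℝ) ^ b0 ≤ x := by
    have := Nat.find_min hex (m := a) (by omega)
    push Not at this
    exact this
  -- now multiply by `r`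
  have hex2 : ∃ j, x < (p : ℝ) ^ a * (q : ℝ) ^ b0 * r ^ j := by
    refine ⟨N, lt_of_lt_of_le ha1s ?_⟩
    rw [pow_succ]
    have : 0 < (p : ℝ) ^ a * (q : ℝ) ^ b0 := by positivity
    nlinarith
  have hNle : Nat.find hex2 ≤ N := by
    apply Nat.find_min' hex2
    refine lt_of_lt_of_le ha1s ?_
    rw [pow_succ]
    have : 0 < (p : ℝ) ^ a * (q : ℝ) ^ b0 := by positivity
    nlinarith
  have hj1s := Nat.find_spec hex2
  set j1 := Nat.find hex2 with hj1
  have hj1pos : 0 < j1 := by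
    rcases Nat.eq_zero_or_pos j1 with h | h
    · rw [h, pow_zero, mul_one] at hj1s
      linarith
    · exact h
  obtain ⟨j, hj⟩ : ∃ j, j1 = j + 1 := ⟨j1 - 1, by omega⟩
  have hjle : (p : ℝ) ^ a * (q : ℝ) ^ b0 * r ^ j ≤ x := by
    have := Nat.find_min hex2 (m := j) (by omega)
    push Not at this
    exact this
  have hjN : j ≤ N := by omega
  have hvj : v * j ≤ v * N := Nat.mul_le_mul_left v hjN
  refine ⟨a + u * j, b0 - v * j, by omega, by omega, ?_⟩
  have hval : (p : ℝ) ^ (a + u * j) * (q : ℝ) ^ (b0 - v * j) =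
      (p : ℝ) ^ a * (q : ℝ) ^ b0 * r ^ j := by
    have hb : b0 = (b0 - v * j) + v * j := by omega
    have h5 : (q : ℝ) ^ b0 = (q : ℝ) ^ (b0 - v * j) * ((q : ℝ) ^ v) ^ j := by
      rw [← pow_mul, ← pow_add, ← hb]
    rw [h5, hr, div_pow, pow_add, pow_mul]
    field_simp
  rw [hval]
  refine ⟨hjle, ?_⟩
  rw [hj, pow_succ] at hj1s
  have h6 : 0 < (p : ℝ) ^ a * (q : ℝ) ^ b0 * r ^ j := by positivity
  nlinarith

/-- Powers of two and three approximate each other. -/
lemma exists_ratio (eta : ℝ) (heta : 0 < eta) :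
    (∃ u v : ℕ, (3 : ℝ) ^ v < (2 : ℝ) ^ u ∧ (2 : ℝ) ^ u < (1 + eta) * (3 : ℝ) ^ v) ∨
    (∃ u v : ℕ, (2 : ℝ) ^ v < (3 : ℝ) ^ u ∧ (3 : ℝ) ^ u < (1 + eta) * (2 : ℝ) ^ v) := by
  have hl2 : 0 < Real.log 2 := Real.log_pos (by norm_num)
  have hl3 : 0 < Real.log 3 := Real.log_pos (by norm_num)
  have hle : 0 < Real.log (1 + eta) := Real.log_pos (by linarith)
  obtain ⟨n, hn⟩ := exists_nat_gt (Real.log 2 / Real.log (1 + eta))
  have hn0 : 0 < n := by
    have : (0 : ℝ) < n := lt_trans (by positivity) hn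
    exact_mod_cast this
  obtain ⟨j, k, hk0, hkn, habs⟩ := Real.exists_int_int_abs_mul_sub_le (Real.log 3 / Real.log 2) hn0
  -- `|k log 3 - j log 2| < log (1 + eta)`
  have h1 : |(k : ℝ) * Real.log 3 - j * Real.log 2| < Real.log (1 + eta) := by
    have h2 : (k : ℝ) * Real.log 3 - j * Real.log 2 =
        ((k : ℝ) * (Real.log 3 / Real.log 2) - j) * Real.log 2 := by
      field_simp
    rw [h2, abs_mul, abs_of_pos hl2]
    have h3 : |(k : ℝ) * (Real.log 3 / Real.log 2) - j| * Real.log 2 ≤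
        1 / (n + 1) * Real.log 2 := mul_le_mul_of_nonneg_right habs hl2.le
    refine lt_of_le_of_lt h3 ?_
    rw [div_lt_iff₀ hle] at hn
    rw [one_div, inv_mul_lt_iff₀ (by positivity)]
    nlinarith
  have hkpos : (0 : ℝ) < k := by exact_mod_cast hk0
  -- `j ≥ 0`
  have hjpos : 0 ≤ j := by
    by_contra hcon
    push Not at hcon
    have hj1 : (j : ℝ) ≤ -1 := by exact_mod_cast (by omega : j ≤ -1)
    have h4 : 1 < (k : ℝ) * (Real.log 3 / Real.log 2) - j := by
      have : 0 < (k : ℝ) * (Real.log 3 / Real.log 2) := by positivity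
      linarith
    have h5 : (1 : ℝ) / (n + 1) ≤ 1 := by
      rw [div_le_one (by positivity)]
      have : (0 : ℝ) ≤ n := by positivity
      linarith
    have h6 := le_abs_self ((k : ℝ) * (Real.log 3 / Real.log 2) - j)
    linarith
  lift k to ℕ using hk0.le
  lift j to ℕ using hjpos
  have hk1 : 0 < k := by exact_mod_cast hk0
  simp only [Int.cast_natCast] at h1
  have e3 : Real.log ((3 : ℝ) ^ k) = k * Real.log 3 := by rw [Real.log_pow]
  have e2 : Real.log ((2 : ℝ) ^ j) = j * Real.log 2 := by rw [Real.log_pow]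
  rw [← e3, ← e2] at h1
  have hne : (3 : ℝ) ^ k ≠ (2 : ℝ) ^ j := by
    intro h
    have h' : 3 ^ k = 2 ^ j := by exact_mod_cast h
    rcases Nat.eq_zero_or_pos j with hj0 | hj0
    · rw [hj0, pow_zero] at h'
      have : 3 ^ 1 ≤ 3 ^ k := Nat.pow_le_pow_right (by norm_num) hk1
      omega
    · have hd : 2 ∣ 3 ^ k := by rw [h']; exact dvd_pow_self 2 hj0.ne'
      have := (Nat.prime_two.dvd_of_dvd_pow hd)
      omega
  rw [abs_lt] at h1
  rcases lt_or_gt_of_ne hne with hlt | hgt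
  · left
    refine ⟨j, k, hlt, ?_⟩
    have h7 : Real.log ((2 : ℝ) ^ j) < Real.log ((1 + eta) * (3 : ℝ) ^ k) := by
      rw [Real.log_mul (by positivity) (by positivity)]
      linarith [h1.1]
    exact (Real.log_lt_log_iff (by positivity) (by positivity)).mp h7
  · right
    refine ⟨k, j, hgt, ?_⟩
    have h7 : Real.log ((3 : ℝ) ^ k) < Real.log ((1 + eta) * (2 : ℝ) ^ j) := by
      rw [Real.log_mul (by positivity) (by positivity)]
      linarith [h1.2]
    exact (Real.log_lt_log_iff (by positivity) (by positivity)).mp h7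

lemma dense_two_three (eta : ℝ) (heta : 0 < eta) (L : ℕ) :
    ∃ X : ℝ, ∀ x : ℝ, X ≤ x → ∃ a b : ℕ, L ≤ a ∧ L ≤ b ∧
      (2 : ℝ) ^ a * (3 : ℝ) ^ b ≤ x ∧ x ≤ (1 + eta) * ((2 : ℝ) ^ a * (3 : ℝ) ^ b) := by
  rcases exists_ratio eta heta with ⟨u, v, h1, h2⟩ | ⟨u, v, h1, h2⟩
  · have := dense_of_ratio 2 3 le_rfl (by norm_num) eta u v (by exact_mod_cast h1)
      (by exact_mod_cast h2) L
    simpa using this
  · obtain ⟨X, hX⟩ := dense_of_ratio 3 2 (by norm_num) le_rfl eta u v (by exact_mod_cast h1)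
      (by exact_mod_cast h2) L
    refine ⟨X, fun x hx => ?_⟩
    obtain ⟨a, b, ha, hb, h3, h4⟩ := hX x hx
    refine ⟨b, a, hb, ha, ?_, ?_⟩
    · rw [mul_comm]; exact_mod_cast h3
    · rw [mul_comm ((2 : ℝ) ^ b)]; exact_mod_cast h4

end density

section final

open Filter

lemma exists_field (p : ℕ) (hp : p.Prime) (a : ℕ) (ha : a ≠ 0) :
    ∃ (F : Type) (_ : Field F) (_ : Fintype F), Fintype.card F = p ^ a := by
  have : Fact p.Prime := ⟨hp⟩
  let : Fintype (GaloisField p a) := Fintype.ofFinite _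
  refine ⟨GaloisField p a, inferInstance, this, ?_⟩
  rw [← Nat.card_eq_fintype_card, GaloisField.card p a ha]

lemma alg_id (s3 sD D th : ℝ) (h3 : s3 ≠ 0) (ht : 1 + th ≠ 0) :
    sD / s3 / (1 + th) * (D * (2 - th) / 3) =
      (1 - th / 2) / (1 + th) * (2 / (3 * s3) * (D * sD)) := by
  field_simp

lemma real_final (eps th n k D K : ℝ) (h : 0 < eps) (hth0 : 0 < th) (hth1 : th ≤ 1 / 2)
    (hthe : th ≤ eps / 2) (hDpos : 1 ≤ D) (hnpos : 0 < n) (hge : √(D / 3) ≤ (1 + th) * n)
    (hn2 : n ^ 2 ≤ D / 3) (hkD : k ≤ (1 + th) * (D / 3)) (h9 : n * (D - k) - n ^ 2 ≤ K + 1)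
    (hD2 : 4 / eps ≤ √D) : (2 / (3 * √3) - eps) * D ^ (3 / 2 : ℝ) ≤ K := by
  have h10 : D - k ≥ D * (2 - th) / 3 := by linarith
  have h11 : √(D / 3) / (1 + th) ≤ n := by
    rw [div_le_iff₀ (by positivity)]
    linarith
  have h12 : √(D / 3) / (1 + th) * (D * (2 - th) / 3) ≤ n * (D - k) := by
    have : 0 ≤ D * (2 - th) / 3 := by
      have : 0 ≤ 2 - th := by linarith
      positivity
    exact mul_le_mul h11 h10 this hnpos.le
  have hDrp : D ^ (3 / 2 : ℝ) = D * √D := by
    have : (3 / 2 : ℝ) = 1 + 1 / 2 := by norm_num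
    rw [this, Real.rpow_add (by positivity), Real.rpow_one, Real.sqrt_eq_rpow]
  have hxs : √(D / 3) = √D / √3 := Real.sqrt_div (by positivity) _
  have hs3 : 0 < √3 := Real.sqrt_pos.mpr (by norm_num)
  have hs3' : 1 ≤ √3 := Real.one_le_sqrt.mpr (by norm_num)
  have hsD : 0 < √D := Real.sqrt_pos.mpr (by linarith)
  have h13 : (1 - 3 / 2 * th) * (2 / (3 * √3) * (D * √D)) ≤
      √(D / 3) / (1 + th) * (D * (2 - th) / 3) := by
    have e1 : √(D / 3) / (1 + th) * (D * (2 - th) / 3) =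
        (1 - th / 2) / (1 + th) * (2 / (3 * √3) * (D * √D)) := by
      rw [hxs]
      exact alg_id _ _ _ _ hs3.ne' (by positivity)
    rw [e1]
    apply mul_le_mul_of_nonneg_right _ (by positivity)
    rw [le_div_iff₀ (by positivity)]
    nlinarith
  have h14 : 2 / (3 * √3) ≤ 2 / 3 := by
    apply div_le_div_of_nonneg_left (by norm_num) (by norm_num)
    linarith
  have h15 : D / 3 + 1 ≤ eps / 2 * (D * √D) := by
    have e1 : 2 ≤ eps / 2 * √D := by
      rw [div_le_iff₀ h] at hD2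
      linarith
    have e2 : 2 * D ≤ eps / 2 * √D * D := by nlinarith
    nlinarith
  rw [hDrp]
  have h16 : 3 / 2 * th * (2 / (3 * √3) * (D * √D)) ≤ eps / 2 * (D * √D) := by
    have e0 : 0 ≤ D * √D := by positivity
    have e1 : 3 / 2 * th * (2 / (3 * √3)) ≤ eps / 2 := by
      have : 0 ≤ 2 / (3 * √3) := by positivity
      nlinarith
    calc 3 / 2 * th * (2 / (3 * √3) * (D * √D))
        = (3 / 2 * th * (2 / (3 * √3))) * (D * √D) := by ring
      _ ≤ _ := mul_le_mul_of_nonneg_right e1 e0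
  have h17 : (2 / (3 * √3) - eps) * (D * √D) =
      (1 - 3 / 2 * th) * (2 / (3 * √3) * (D * √D)) +
        3 / 2 * th * (2 / (3 * √3) * (D * √D)) - eps * (D * √D) := by ring
  rw [h17]
  linarith

theorem lower (eps : ℝ) (h : 0 < eps) : ∀ᶠ D : ℕ in atTop,
    ∃ (n : ℕ) (G : SimpleGraph (Fin n)), IsChordal G ∧ HasMaxDegree G D ∧
      ∀ k f, IsL21Labelling G k f →
        (2 / (3 * √3) - eps) * (D : ℝ) ^ (3 / 2 : ℝ) ≤ k := by
  set th : ℝ := min eps 1 / 2 with hth
  have hth0 : 0 < th := by positivity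
  have hth1 : th ≤ 1 / 2 := by
    have := min_le_right eps 1
    linarith
  have hthe : th ≤ eps / 2 := by
    have := min_le_left eps 1
    linarith
  obtain ⟨L0, hL0⟩ := pow_unbounded_of_one_lt (3 / th) (by norm_num : (1 : ℝ) < 2)
  set L : ℕ := L0 + 1 with hL
  have hL2 : 3 / th ≤ (2 : ℝ) ^ L := by
    rw [hL, pow_succ]
    have : (0 : ℝ) < 2 ^ L0 := by positivity
    linarith
  obtain ⟨X, hX⟩ := dense_two_three th hth0 L
  -- largeness conditions
  have hev1 : ∀ᶠ D : ℕ in atTop, X ≤ √((D : ℝ) / 3) := by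
    have h1 : Tendsto (fun D : ℕ => √((D : ℝ) / 3)) atTop atTop := by
      apply Real.tendsto_sqrt_atTop.comp
      exact tendsto_natCast_atTop_atTop.atTop_div_const (by norm_num)
    exact h1.eventually_ge_atTop X
  have hev2 : ∀ᶠ D : ℕ in atTop, 4 / eps ≤ √(D : ℝ) := by
    have h1 : Tendsto (fun D : ℕ => √(D : ℝ)) atTop atTop :=
      Real.tendsto_sqrt_atTop.comp tendsto_natCast_atTop_atTop
    exact h1.eventually_ge_atTop _
  filter_upwards [hev1, hev2, eventually_ge_atTop 1] with D hD1 hD2 hD3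
  obtain ⟨a, b, ha, hb, hle, hge⟩ := hX _ hD1
  have hDpos : (1 : ℝ) ≤ D := by exact_mod_cast hD3
  set x : ℝ := √((D : ℝ) / 3) with hx
  have hx2 : x ^ 2 = D / 3 := Real.sq_sqrt (by positivity)
  have hx0 : 0 < x := Real.sqrt_pos.mpr (by positivity)
  set q1 : ℕ := 2 ^ a with hq1
  set q2 : ℕ := 3 ^ b with hq2
  have hq1L : (2 : ℝ) ^ L ≤ q1 := by
    rw [hq1]
    push_cast
    exact pow_le_pow_right₀ (by norm_num) ha
  have hq2L : (2 : ℝ) ^ L ≤ q2 := by
    rw [hq2]
    push_cast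
    calc (2 : ℝ) ^ L ≤ 3 ^ L := pow_le_pow_left₀ (by norm_num) (by norm_num) _
      _ ≤ 3 ^ b := pow_le_pow_right₀ (by norm_num) hb
  set n : ℕ := q1 * q2 with hn
  have hnr : (n : ℝ) = (2 : ℝ) ^ a * (3 : ℝ) ^ b := by
    rw [hn, hq1, hq2]; push_cast; ring
  rw [← hnr] at hle hge
  have hnpos : (0 : ℝ) < n := by rw [hnr]; positivity
  have hnN : 0 < n := by exact_mod_cast hnpos
  set k : ℕ := (q1 + 1) * q1 * ((q2 + 1) * q2) with hk
  have hq1pos : (0 : ℝ) < q1 := lt_of_lt_of_le (by positivity) hq1L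
  have hq2pos : (0 : ℝ) < q2 := lt_of_lt_of_le (by positivity) hq2L
  have hk1 : 1 ≤ k := by
    have : (0 : ℝ) < k := by
      rw [hk]; push_cast; positivity
    exact_mod_cast this
  -- `k ≤ (1 + th) n²`
  have hkn : (k : ℝ) ≤ (1 + th) * (n : ℝ) ^ 2 := by
    have e1 : (k : ℝ) = (n : ℝ) ^ 2 * ((1 + 1 / q1) * (1 + 1 / q2)) := by
      rw [hk, hn]; push_cast; field_simp
    rw [e1, mul_comm]
    apply mul_le_mul_of_nonneg_right _ (by positivity)
    have h2L : (0 : ℝ) < 2 ^ L := by positivity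
    have e2 : 1 / (q1 : ℝ) ≤ th / 3 := by
      rw [div_le_div_iff₀ hq1pos (by norm_num)]
      rw [div_le_iff₀ hth0] at hL2
      nlinarith
    have e3 : 1 / (q2 : ℝ) ≤ th / 3 := by
      rw [div_le_div_iff₀ hq2pos (by norm_num)]
      rw [div_le_iff₀ hth0] at hL2
      nlinarith
    have e4 : 0 ≤ 1 / (q1 : ℝ) := by positivity
    have e5 : 0 ≤ 1 / (q2 : ℝ) := by positivity
    nlinarith
  have hn2 : (n : ℝ) ^ 2 ≤ D / 3 := by
    rw [← hx2]
    exact pow_le_pow_left₀ hnpos.le hle 2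
  have hkD : (k : ℝ) ≤ (1 + th) * (D / 3) :=
    hkn.trans (mul_le_mul_of_nonneg_left hn2 (by linarith))
  have hkD' : k ≤ D := by
    have : (k : ℝ) ≤ D := by nlinarith
    exact_mod_cast this
  obtain ⟨N, G, hG1, hG2, hG3⟩ := exists_graph q1 q2
    (exists_field 2 Nat.prime_two a (by omega)) (exists_field 3 Nat.prime_three b (by omega)) D hkD'
  refine ⟨N, G, hG1, hG2, fun K f hf => ?_⟩
  have h1 := hG3 K f hf
  rw [← hn, ← hk] at h1
  -- lower bound for the floor
  have h2 : n * ((D - (k - 1)) / n) + n ≥ D - (k - 1) := by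
    have h3 := Nat.div_add_mod (D - (k - 1)) n
    have h4 := Nat.mod_lt (D - (k - 1)) hnN
    omega
  have h5 : (n : ℝ) * (((D - (k - 1)) / n : ℕ) : ℝ) + n ≥ D - k := by
    have h6 : D ≤ n * ((D - (k - 1)) / n) + n + k := by omega
    have h7 : (D : ℝ) ≤ n * (((D - (k - 1)) / n : ℕ) : ℝ) + n + k := by exact_mod_cast h6
    linarith
  have h8 : (n : ℝ) ^ 2 * (((D - (k - 1)) / n : ℕ) : ℝ) ≤ K + 1 := by exact_mod_cast h1
  have h9 : (n : ℝ) * (D - k) - (n : ℝ) ^ 2 ≤ K + 1 := by nlinarith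
  exact real_final eps th n k D K h hth0 hth1 hthe hDpos hnpos hge hn2 hkD h9 hD2

end final

end Pool.Agent.H59.ChordalLower
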