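import Mathlib

set_option autoImplicit false

open Matrix Module Polynomial

namespace Pool.Agent.H59.TTO

section smooth

variable {P : Type*} [NormedAddCommGroup P] [NormedSpace ℝ P]

/-- A matrix-valued map all of whose entries are continuously differentiable. -/
def SM {α β : Type*} (M : P → Matrix α β ℂ) : Prop :=
  ∀ i j, ContDiff ℝ 1 (fun p => M p i j)

lemma SM.mul {α β γ : Type*} [Fintype β] {M : P → Matrix α β ℂ} {N : P → Matrix β γ ℂ}
    (hM : SM M) (hN : SM N) : SM (fun p => M p * N p) := by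
  intro i j
  simp only [Matrix.mul_apply]
  exact ContDiff.sum fun k _ => (hM i k).mul (hN k j)

lemma SM.add {α β : Type*} {M N : P → Matrix α β ℂ}
    (hM : SM M) (hN : SM N) : SM (fun p => M p + N p) := by
  intro i j
  simp only [Matrix.add_apply]
  exact (hM i j).add (hN i j)

lemma SM.sub {α β : Type*} {M N : P → Matrix α β ℂ}
    (hM : SM M) (hN : SM N) : SM (fun p => M p - N p) := by
  intro i j
  simp only [Matrix.sub_apply]
  exact (hM i j).sub (hN i j)

lemma SM.smul {α β : Type*} {f : P → ℂ} {M : P → Matrix α β ℂ}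
    (hf : ContDiff ℝ 1 f) (hM : SM M) : SM (fun p => f p • M p) := by
  intro i j
  simp only [Matrix.smul_apply, smul_eq_mul]
  exact hf.mul (hM i j)

lemma SM.const {α β : Type*} (M : Matrix α β ℂ) : SM (fun _ : P => M) := by
  intro i j
  exact contDiff_const

lemma SM.conjTranspose {α β : Type*} {M : P → Matrix α β ℂ}
    (hM : SM M) : SM (fun p => (M p)ᴴ) := by
  intro i j
  simp only [Matrix.conjTranspose_apply]
  exact (Complex.conjCLE.contDiff (n := 1)).comp (hM j i)

lemma SM.pow {α : Type*} [Fintype α] [DecidableEq α] {M : P → Matrix α α ℂ}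
    (hM : SM M) (k : ℕ) : SM (fun p => M p ^ k) := by
  induction k with
  | zero => simpa using SM.const (P := P) (1 : Matrix α α ℂ)
  | succ k ih =>
    simp only [pow_succ]
    exact ih.mul hM

lemma SM.sum {α β ι : Type*} {s : Finset ι} {M : ι → P → Matrix α β ℂ}
    (hM : ∀ i ∈ s, SM (M i)) : SM (fun p => ∑ i ∈ s, M i p) := by
  intro i j
  simp only [Matrix.sum_apply]
  exact ContDiff.sum fun k hk => hM k hk i j

lemma SM.aeval {α : Type*} [Fintype α] [DecidableEq α] {M : P → Matrix α α ℂ}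
    (hM : SM M) (q : ℂ[X]) : SM (fun p => Polynomial.aeval (M p) q) := by
  simp only [Polynomial.aeval_eq_sum_range]
  exact SM.sum fun k _ => SM.smul contDiff_const (hM.pow k)

lemma SM.det {α : Type*} [Fintype α] [DecidableEq α] {M : P → Matrix α α ℂ}
    (hM : SM M) : ContDiff ℝ 1 (fun p => (M p).det) := by
  simp only [Matrix.det_apply]
  refine ContDiff.sum fun τ _ => ?_
  have : ContDiff ℝ 1 (fun p => ∏ i, M p (τ i) i) := contDiff_prod fun i _ => hM _ _
  have h2 : (fun p => Equiv.Perm.sign τ • ∏ i, M p (τ i) i) =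
      fun p => (((Equiv.Perm.sign τ : ℤ) : ℂ)) * ∏ i, M p (τ i) i := by
    funext p
    rw [Units.smul_def, zsmul_eq_mul]
  rw [h2]
  exact contDiff_const.mul this

lemma SM.adjugate {α : Type*} [Fintype α] [DecidableEq α] {M : P → Matrix α α ℂ}
    (hM : SM M) : SM (fun p => (M p).adjugate) := by
  intro i j
  simp only [Matrix.adjugate_apply]
  apply SM.det
  intro k l
  by_cases h : k = j
  · subst h
    simp only [Matrix.updateRow_self]
    exact contDiff_const
  · simp only [Matrix.updateRow_ne h]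
    exact hM k l

lemma SM.trace {α : Type*} [Fintype α] {M : P → Matrix α α ℂ}
    (hM : SM M) : ContDiff ℝ 1 (fun p => (M p).trace) := by
  simp only [Matrix.trace, Matrix.diag]
  exact ContDiff.sum fun k _ => hM k k

end smooth

/-- The index type of a block matrix with block sizes `m`. -/
abbrev Idx {r : ℕ} (m : Fin r → ℕ) : Type := Σ i : Fin r, Fin (m i)

/-- A Toeplitz matrix with lower part given by `c` and strict upper part given by `e`. -/
noncomputable def toep {k : ℕ} (c e : Fin k → ℂ) : Matrix (Fin k) (Fin k) ℂ :=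
  Matrix.of fun i j => if (j : ℕ) ≤ i then c ⟨(i : ℕ) - j, by omega⟩ else e ⟨(j : ℕ) - i, by omega⟩

/-- A block diagonal matrix with Toeplitz blocks. -/
noncomputable def bt {r : ℕ} (m : Fin r → ℕ) (c e : Idx m → ℂ) : Matrix (Idx m) (Idx m) ℂ :=
  blockDiagonal' fun i => toep (fun k => c ⟨i, k⟩) (fun k => e ⟨i, k⟩)

lemma toep_of_fun {k : ℕ} (g : ℂ → ℂ) :
    (Matrix.of fun (j l : Fin k) => g (((l : ℕ) : ℂ) - ((j : ℕ) : ℂ))) =
      toep (fun l : Fin k => g (-((l : ℕ) : ℂ))) (fun l : Fin k => g ((l : ℕ) : ℂ)) := by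
  ext i j
  simp only [Matrix.of_apply, toep]
  split_ifs with h
  · congr 1
    push_cast [Nat.cast_sub h]
    ring
  · congr 1
    have h' : (i : ℕ) ≤ j := by omega
    push_cast [Nat.cast_sub h']
    ring

section smooth2

variable {P : Type*} [NormedAddCommGroup P] [NormedSpace ℝ P]

lemma SM.bt {r : ℕ} (m : Fin r → ℕ) {c e : P → Idx m → ℂ}
    (hc : ∀ s, ContDiff ℝ 1 (fun p => c p s)) (he : ∀ s, ContDiff ℝ 1 (fun p => e p s)) :
    SM (fun p => bt m (c p) (e p)) := by
  rintro ⟨i, x⟩ ⟨j, y⟩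
  by_cases h : i = j
  · subst h
    simp only [TTO.bt, blockDiagonal'_apply_eq, toep, Matrix.of_apply]
    by_cases h2 : (y : ℕ) ≤ x
    · simp only [h2, if_true]
      exact hc _
    · simp only [h2, if_false]
      exact he _
  · simp only [TTO.bt, blockDiagonal'_apply_ne _ _ _ h]
    exact contDiff_const

end smooth2

/-- The parameter space. -/
abbrev Par {r : ℕ} (m : Fin r → ℕ) : Type :=
  ((Idx m → ℂ) × (Idx m → ℂ)) × ((Idx m → ℂ) × (Idx m → ℂ)) × ℂ

/-- Gram matrix from the parameters. -/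
noncomputable def Gm {r : ℕ} (m : Fin r → ℕ) (p : Par m) : Matrix (Idx m) (Idx m) ℂ :=
  bt m p.1.1 p.1.2

/-- Symbol matrix from the parameters. -/
noncomputable def Tm {r : ℕ} (m : Fin r → ℕ) (p : Par m) : Matrix (Idx m) (Idx m) ℂ :=
  bt m p.2.1.1 p.2.1.2

/-- `δ • adj(G) * (T + Tᴴ)/2`. -/
noncomputable def Xof {α : Type*} [Fintype α] [DecidableEq α] (δ : ℂ) (G T : Matrix α α ℂ) :
    Matrix α α ℂ :=
  δ • (G.adjugate * ((1 / 2 : ℂ) • (T + Tᴴ)))

/-- `δ • adj(G) * (T - Tᴴ)/(2i)`. -/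
noncomputable def Yof {α : Type*} [Fintype α] [DecidableEq α] (δ : ℂ) (G T : Matrix α α ℂ) :
    Matrix α α ℂ :=
  δ • (G.adjugate * ((1 / (2 * Complex.I) : ℂ) • (T - Tᴴ)))

/-- The map of invariants. -/
noncomputable def Fm {n r : ℕ} (m : Fin r → ℕ) (L : Fin n → ℂ[X]) (p : Par m) :
    Sym2 (Fin n) → ℝ := fun z =>
  (1 / 2) * (Matrix.trace
    (Polynomial.aeval (Xof p.2.2 (Gm m p) (Tm m p)) (L (Quot.out z).1) *
      Yof p.2.2 (Gm m p) (Tm m p) *
      Polynomial.aeval (Xof p.2.2 (Gm m p) (Tm m p)) (L (Quot.out z).2) *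
      Yof p.2.2 (Gm m p) (Tm m p))).re

lemma contDiff_Fm {n r : ℕ} (m : Fin r → ℕ) (L : Fin n → ℂ[X]) :
    ContDiff ℝ 1 (Fm m L) := by
  rw [contDiff_pi]
  intro z
  have hG : SM (fun p : Par m => Gm m p) := by
    apply SM.bt
    · intro s; fun_prop
    · intro s; fun_prop
  have hT : SM (fun p : Par m => Tm m p) := by
    apply SM.bt
    · intro s; fun_prop
    · intro s; fun_prop
  have hδ : ContDiff ℝ 1 (fun p : Par m => p.2.2) := by fun_prop
  have hX : SM (fun p : Par m => Xof p.2.2 (Gm m p) (Tm m p)) :=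
    SM.smul hδ (hG.adjugate.mul (SM.smul contDiff_const (hT.add hT.conjTranspose)))
  have hY : SM (fun p : Par m => Yof p.2.2 (Gm m p) (Tm m p)) :=
    SM.smul hδ (hG.adjugate.mul (SM.smul contDiff_const (hT.sub hT.conjTranspose)))
  have h := ((((hX.aeval (L (Quot.out z).1)).mul hY).mul (hX.aeval (L (Quot.out z).2))).mul hY).trace
  have h2 : ContDiff ℝ 1 (fun w : ℂ => w.re) := Complex.reCLM.contDiff
  exact contDiff_const.mul (h2.comp h)

lemma finrank_Par {r : ℕ} (m : Fin r → ℕ) :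
    finrank ℝ (Par m) = 8 * (∑ i, m i) + 2 := by
  have h1 : finrank ℝ (Idx m → ℂ) = 2 * ∑ i, m i := by
    rw [Module.finrank_pi_fintype]
    simp [Complex.finrank_real_complex, Fintype.card_sigma, mul_comm]
  simp only [Module.finrank_prod, h1, Complex.finrank_real_complex]
  ring

section algebra

variable {τ σ : Type*} [Fintype τ] [DecidableEq τ] [Fintype σ] [DecidableEq σ]

/-- Conjugation `M ↦ L * M * S` when `L * S = 1` and `S * L = 1`. -/
noncomputable def conjHom (L : Matrix σ τ ℂ) (S : Matrix τ σ ℂ) (h1 : L * S = 1) (h2 : S * L = 1) :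
    Matrix τ τ ℂ →ₐ[ℂ] Matrix σ σ ℂ :=
  AlgHom.ofLinearMap
    { toFun := fun M => L * M * S
      map_add' := by intro x y; rw [Matrix.mul_add, Matrix.add_mul]
      map_smul' := by intro c x; simp }
    (by simp [h1])
    (by
      intro x y
      simp only [LinearMap.coe_mk, AddHom.coe_mk]
      calc L * (x * y) * S = L * x * (1 : Matrix τ τ ℂ) * y * S := by
            simp only [Matrix.mul_one, Matrix.mul_assoc]
        _ = L * x * (S * L) * y * S := by rw [h2]
        _ = L * x * S * (L * y * S) := by simp only [Matrix.mul_assoc])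

lemma conjHom_apply (L : Matrix σ τ ℂ) (S : Matrix τ σ ℂ) (h1 : L * S = 1) (h2 : S * L = 1)
    (M : Matrix τ τ ℂ) : conjHom L S h1 h2 M = L * M * S := rfl

lemma trace_invariant (hcard : Fintype.card τ = Fintype.card σ) (S : Matrix τ σ ℂ)
    (B : Matrix τ τ ℂ) (hdet : (Sᴴ * S).det ≠ 0) (p q : ℂ[X]) :
    Matrix.trace
      (Polynomial.aeval (Xof ((Sᴴ * S).det)⁻¹ (Sᴴ * S) (Sᴴ * B * S)) p *
        Yof ((Sᴴ * S).det)⁻¹ (Sᴴ * S) (Sᴴ * B * S) *
        Polynomial.aeval (Xof ((Sᴴ * S).det)⁻¹ (Sᴴ * S) (Sᴴ * B * S)) q *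
        Yof ((Sᴴ * S).det)⁻¹ (Sᴴ * S) (Sᴴ * B * S)) =
    Matrix.trace
      (Polynomial.aeval ((1 / 2 : ℂ) • (B + Bᴴ)) p * ((1 / (2 * Complex.I) : ℂ) • (B - Bᴴ)) *
        Polynomial.aeval ((1 / 2 : ℂ) • (B + Bᴴ)) q * ((1 / (2 * Complex.I) : ℂ) • (B - Bᴴ))) := by
  set δ : ℂ := ((Sᴴ * S).det)⁻¹ with hδ
  set L : Matrix σ τ ℂ := δ • ((Sᴴ * S).adjugate * Sᴴ) with hL
  have h1 : L * S = 1 := by
    rw [hL, Matrix.smul_mul, Matrix.mul_assoc, Matrix.adjugate_mul, smul_smul, hδ,
      inv_mul_cancel₀ hdet, one_smul]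
  have h2 : S * L = 1 := (Matrix.mul_eq_one_comm_of_equiv (Fintype.equivOfCardEq hcard)).mpr h1
  have hX : Xof δ (Sᴴ * S) (Sᴴ * B * S) = conjHom L S h1 h2 ((1 / 2 : ℂ) • (B + Bᴴ)) := by
    rw [conjHom_apply, hL, Xof]
    simp only [Matrix.conjTranspose_mul, Matrix.conjTranspose_conjTranspose, Matrix.smul_mul,
      Matrix.mul_smul, Matrix.mul_add, Matrix.add_mul, Matrix.mul_assoc]
    rw [smul_comm, smul_add]
  have hY : Yof δ (Sᴴ * S) (Sᴴ * B * S) =
      conjHom L S h1 h2 ((1 / (2 * Complex.I) : ℂ) • (B - Bᴴ)) := by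
    rw [conjHom_apply, hL, Yof]
    simp only [Matrix.conjTranspose_mul, Matrix.conjTranspose_conjTranspose, Matrix.smul_mul,
      Matrix.mul_smul, Matrix.mul_sub, Matrix.sub_mul, Matrix.mul_assoc]
    rw [smul_comm, smul_sub]
  rw [hX, hY, Polynomial.aeval_algHom_apply, Polynomial.aeval_algHom_apply, ← map_mul, ← map_mul,
    ← map_mul, conjHom_apply, Matrix.trace_mul_cycle, h2, Matrix.one_mul]

lemma aeval_diagonal (v : τ → ℂ) (p : ℂ[X]) :
    Polynomial.aeval (Matrix.diagonal v) p = Matrix.diagonal fun x => p.eval (v x) := by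
  have : (Matrix.diagonal v) = Matrix.diagonalAlgHom ℂ v := rfl
  rw [this, Polynomial.aeval_algHom_apply]
  change Matrix.diagonal _ = _
  congr 1
  funext x
  rw [Polynomial.aeval_pi_apply]
  simp

end algebra

section compute

variable {n : ℕ}

/-- The matrix `diag(d) + i K`. -/
noncomputable def Amat (d : Fin n → ℝ) (K : Matrix (Fin n) (Fin n) ℂ) :
    Matrix (Fin n) (Fin n) ℂ :=
  Matrix.diagonal (fun i => (d i : ℂ)) + Complex.I • K

lemma invariant_value (d : Fin n → ℝ) (K : Matrix (Fin n) (Fin n) ℂ) (hK : Kᴴ = K)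
    (p q : ℂ[X]) (i j : Fin n)
    (hp : ∀ x, p.eval (d x : ℂ) = if x = i then 1 else 0)
    (hq : ∀ x, q.eval (d x : ℂ) = if x = j then 1 else 0) :
    Matrix.trace
      (Polynomial.aeval ((1 / 2 : ℂ) • (fromBlocks (Amat d K) 0 0 (Amat d K)ᵀ +
          (fromBlocks (Amat d K) 0 0 (Amat d K)ᵀ)ᴴ)) p *
        ((1 / (2 * Complex.I) : ℂ) • (fromBlocks (Amat d K) 0 0 (Amat d K)ᵀ -
          (fromBlocks (Amat d K) 0 0 (Amat d K)ᵀ)ᴴ)) *
        Polynomial.aeval ((1 / 2 : ℂ) • (fromBlocks (Amat d K) 0 0 (Amat d K)ᵀ +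
          (fromBlocks (Amat d K) 0 0 (Amat d K)ᵀ)ᴴ)) q *
        ((1 / (2 * Complex.I) : ℂ) • (fromBlocks (Amat d K) 0 0 (Amat d K)ᵀ -
          (fromBlocks (Amat d K) 0 0 (Amat d K)ᵀ)ᴴ))) = 2 * (K i j * K j i) := by
  have hKc : ∀ x y, (starRingEnd ℂ) (K x y) = K y x := by
    intro x y
    have := congrFun (congrFun hK y) x
    simpa [Matrix.conjTranspose_apply] using this
  have hH : ((1 / 2 : ℂ) • (fromBlocks (Amat d K) 0 0 (Amat d K)ᵀ +
          (fromBlocks (Amat d K) 0 0 (Amat d K)ᵀ)ᴴ)) =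
      Matrix.diagonal (Sum.elim (fun x => (d x : ℂ)) (fun x => (d x : ℂ))) := by
    ext a b
    rcases a with a | a <;> rcases b with b | b
    · simp only [Amat, Matrix.smul_apply, Matrix.add_apply, Matrix.conjTranspose_apply,
        Matrix.fromBlocks_apply₁₁, Matrix.diagonal_apply, smul_eq_mul, star_add, star_mul',
        Sum.elim_inl, Sum.inl.injEq, RCLike.star_def, hKc, Complex.conj_I]
      by_cases h : a = b
      · subst h; simp; ring
      · have h' : b ≠ a := fun h'' => h h''.symm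
        simp [h, h']
    · simp
    · simp
    · simp only [Amat, Matrix.smul_apply, Matrix.add_apply, Matrix.conjTranspose_apply,
        Matrix.fromBlocks_apply₂₂, Matrix.diagonal_apply, smul_eq_mul, star_add, star_mul',
        Sum.elim_inr, Sum.inr.injEq, RCLike.star_def, hKc, Complex.conj_I, Matrix.transpose_apply]
      by_cases h : a = b
      · subst h; simp; ring
      · have h' : b ≠ a := fun h'' => h h''.symm
        simp [h, h']
  have hKK : ((1 / (2 * Complex.I) : ℂ) • (fromBlocks (Amat d K) 0 0 (Amat d K)ᵀ -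
          (fromBlocks (Amat d K) 0 0 (Amat d K)ᵀ)ᴴ)) = fromBlocks K 0 0 Kᵀ := by
    have hI : Complex.I ≠ 0 := Complex.I_ne_zero
    ext a b
    rcases a with a | a <;> rcases b with b | b
    · simp only [Amat, Matrix.smul_apply, Matrix.add_apply, Matrix.sub_apply,
        Matrix.conjTranspose_apply,
        Matrix.fromBlocks_apply₁₁, Matrix.diagonal_apply, smul_eq_mul, star_add, star_mul',
        RCLike.star_def, hKc, Complex.conj_I]
      by_cases h : a = b
      · subst h; simp; field_simp; ring_nf; rw [Complex.I_sq]; ring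
      · have h' : b ≠ a := fun h'' => h h''.symm
        simp [h, h']; field_simp; ring_nf; rw [Complex.I_sq]; ring
    · simp
    · simp
    · simp only [Amat, Matrix.smul_apply, Matrix.add_apply, Matrix.sub_apply,
        Matrix.conjTranspose_apply,
        Matrix.fromBlocks_apply₂₂, Matrix.diagonal_apply, smul_eq_mul, star_add, star_mul',
        RCLike.star_def, hKc, Complex.conj_I, Matrix.transpose_apply]
      by_cases h : a = b
      · subst h; simp; field_simp; ring_nf; rw [Complex.I_sq]; ring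
      · have h' : b ≠ a := fun h'' => h h''.symm
        simp [h, h']; field_simp; ring_nf; rw [Complex.I_sq]; ring
  rw [hH, hKK, aeval_diagonal, aeval_diagonal]
  have e1 : ∀ (P : ℂ[X]) (l : Fin n) (_ : ∀ x, P.eval (d x : ℂ) = if x = l then 1 else 0),
      (Matrix.diagonal fun x : Fin n ⊕ Fin n =>
        P.eval (Sum.elim (fun x => (d x : ℂ)) (fun x => (d x : ℂ)) x)) =
      fromBlocks (Matrix.diagonal fun x => if x = l then (1 : ℂ) else 0) 0 0
        (Matrix.diagonal fun x => if x = l then (1 : ℂ) else 0) := by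
    intro P l hP
    rw [Matrix.fromBlocks_diagonal]
    congr 1
    funext x
    rcases x with x | x <;> simp [hP]
  rw [e1 p i hp, e1 q j hq]
  simp only [Matrix.fromBlocks_multiply, Matrix.mul_zero, Matrix.zero_mul, add_zero, zero_add]
  have e0 : ∀ (M N : Matrix (Fin n) (Fin n) ℂ),
      Matrix.trace (fromBlocks M 0 0 N) = Matrix.trace M + Matrix.trace N := by
    intro M N
    simp [Matrix.trace, Fintype.sum_sum_type]
  have e2 : ∀ (M N : Matrix (Fin n) (Fin n) ℂ),
      Matrix.trace ((Matrix.diagonal fun x => if x = i then (1 : ℂ) else 0) * M *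
        (Matrix.diagonal fun x => if x = j then (1 : ℂ) else 0) * N) = M i j * N j i := by
    intro M N
    have e3 : ∀ x y, ((Matrix.diagonal fun x => if x = i then (1 : ℂ) else 0) * M *
        (Matrix.diagonal fun x => if x = j then (1 : ℂ) else 0)) x y =
        (if x = i then (1 : ℂ) else 0) * M x y * (if y = j then (1 : ℂ) else 0) := by
      intro x y
      rw [Matrix.mul_diagonal, Matrix.diagonal_mul]
    simp only [Matrix.trace, Matrix.diag]
    rw [Finset.sum_eq_single i]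
    · rw [Matrix.mul_apply, Finset.sum_eq_single j]
      · rw [e3]; simp
      · intro b _ hb; rw [e3]; simp [hb]
      · simp
    · intro b _ hb
      rw [Matrix.mul_apply]
      apply Finset.sum_eq_zero
      intro c _
      rw [e3]; simp [hb]
    · simp
  rw [e0, e2, e2]
  simp only [Matrix.transpose_apply]
  ring

end compute

section pos

variable {k : ℕ}

/-- `|∏ (1 - conj(a) e^{it})|^2`. -/
noncomputable def den (a : Fin k → ℂ) (t : ℝ) : ℝ :=
  Complex.normSq (∏ l : Fin k, (1 - starRingEnd ℂ (a l) * Complex.exp ((t : ℂ) * Complex.I)))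

lemma den_pos (a : Fin k → ℂ) (ha : ∀ l, ‖a l‖ < 1) (t : ℝ) : 0 < den a t := by
  unfold den
  rw [Complex.normSq_pos, Finset.prod_ne_zero_iff]
  intro l _ h
  have h1 : starRingEnd ℂ (a l) * Complex.exp ((t : ℂ) * Complex.I) = 1 := (sub_eq_zero.mp h).symm
  have h2 : ‖starRingEnd ℂ (a l) * Complex.exp ((t : ℂ) * Complex.I)‖ = 1 := by rw [h1]; simp
  rw [norm_mul, Complex.norm_exp_ofReal_mul_I, mul_one, RCLike.norm_conj] at h2
  exact absurd h2 (ha l).ne

lemma den_cont (a : Fin k → ℂ) : Continuous (den a) := by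
  unfold den
  exact Complex.continuous_normSq.comp (by fun_prop)

/-- The Gram matrix. -/
noncomputable def gram (a : Fin k → ℂ) : Matrix (Fin k) (Fin k) ℂ :=
  Matrix.of fun j l => ∫ t in (0:ℝ)..(2 * Real.pi),
    Complex.exp ((((l : ℕ) : ℂ) - ((j : ℕ) : ℂ)) * (t : ℂ) * Complex.I) / ((den a t : ℝ) : ℂ)

/-- The trigonometric polynomial with coefficients `v`. -/
noncomputable def trig (v : Fin k → ℂ) (t : ℝ) : ℂ :=
  ∑ l : Fin k, v l * Complex.exp (((l : ℕ) : ℂ) * (t : ℂ) * Complex.I)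

lemma trig_cont (v : Fin k → ℂ) : Continuous (trig v) := by
  unfold trig
  fun_prop

lemma gram_quad (a : Fin k → ℂ) (ha : ∀ l, ‖a l‖ < 1) (v : Fin k → ℂ) :
    ∑ j, star (v j) * (gram a *ᵥ v) j =
      ((∫ t in (0:ℝ)..(2 * Real.pi), Complex.normSq (trig v t) / den a t : ℝ) : ℂ) := by
  have hden : ∀ t, ((den a t : ℝ) : ℂ) ≠ 0 := fun t => by
    exact_mod_cast (den_pos a ha t).ne'
  have hint : ∀ (j l : Fin k), Continuous (fun t : ℝ => star (v j) * v l *
      (Complex.exp ((((l : ℕ) : ℂ) - ((j : ℕ) : ℂ)) * (t : ℂ) * Complex.I) /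
        ((den a t : ℝ) : ℂ))) := by
    intro j l
    refine continuous_const.mul (Continuous.div (by fun_prop) ?_ hden)
    exact Complex.continuous_ofReal.comp (den_cont a)
  rw [← intervalIntegral.integral_ofReal]
  have hpt : ∀ t : ℝ, ((Complex.normSq (trig v t) / den a t : ℝ) : ℂ) =
      ∑ j, ∑ l, star (v j) * v l *
      (Complex.exp ((((l : ℕ) : ℂ) - ((j : ℕ) : ℂ)) * (t : ℂ) * Complex.I) /
        ((den a t : ℝ) : ℂ)) := by
    intro t
    rw [Complex.ofReal_div, Complex.normSq_eq_conj_mul_self, trig, map_sum, Finset.sum_mul,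
      Finset.sum_div]
    refine Finset.sum_congr rfl fun j _ => ?_
    rw [Finset.mul_sum, Finset.sum_div]
    refine Finset.sum_congr rfl fun l _ => ?_
    have : Complex.exp ((((l : ℕ) : ℂ) - ((j : ℕ) : ℂ)) * (t : ℂ) * Complex.I) =
        starRingEnd ℂ (Complex.exp (((j : ℕ) : ℂ) * (t : ℂ) * Complex.I)) *
          Complex.exp (((l : ℕ) : ℂ) * (t : ℂ) * Complex.I) := by
      rw [← Complex.exp_conj, ← Complex.exp_add]
      congr 1
      simp
      ring
    rw [this, map_mul]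
    simp only [RCLike.star_def]
    ring
  simp_rw [hpt]
  rw [intervalIntegral.integral_finsetSum]
  · refine Finset.sum_congr rfl fun j _ => ?_
    rw [intervalIntegral.integral_finsetSum]
    · simp only [Matrix.mulVec, dotProduct, Finset.mul_sum]
      refine Finset.sum_congr rfl fun l _ => ?_
      rw [intervalIntegral.integral_const_mul]
      simp only [gram, Matrix.of_apply]
      ring
    · intro l _
      exact (hint j l).intervalIntegrable _ _
  · intro j _
    exact (continuous_finsetSum _ fun l _ => hint j l).intervalIntegrable _ _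

lemma trig_eq_zero (v : Fin k → ℂ) (h : ∀ t ∈ Set.Icc (0:ℝ) 1, trig v t = 0) : v = 0 := by
  set P : ℂ[X] := ∑ l : Fin k, Polynomial.C (v l) * Polynomial.X ^ (l : ℕ) with hP
  have hroot : ∀ t ∈ Set.Icc (0:ℝ) 1, P.IsRoot (Complex.exp ((t : ℂ) * Complex.I)) := by
    intro t ht
    rw [Polynomial.IsRoot.def, ← h t ht, hP, Polynomial.eval_finsetSum, trig]
    refine Finset.sum_congr rfl fun l _ => ?_
    simp only [Polynomial.eval_mul, Polynomial.eval_C, Polynomial.eval_pow, Polynomial.eval_X,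
      ← Complex.exp_nat_mul]
    congr 2
    ring
  have hinj : Set.InjOn (fun t : ℝ => Complex.exp ((t : ℂ) * Complex.I)) (Set.Icc 0 1) := by
    intro s hs t ht hst
    have hpi := Real.pi_gt_three
    have := Complex.exp_inj_of_neg_pi_lt_of_le_pi (x := (s : ℂ) * Complex.I)
      (y := (t : ℂ) * Complex.I) (by simp; linarith [hs.1]) (by simp; linarith [hs.2])
      (by simp; linarith [ht.1]) (by simp; linarith [ht.2]) hst
    have h3 := mul_right_cancel₀ Complex.I_ne_zero this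
    exact_mod_cast h3
  have hinf : ((fun t : ℝ => Complex.exp ((t : ℂ) * Complex.I)) '' (Set.Icc 0 1)).Infinite :=
    (Set.Icc_infinite (by norm_num)).image hinj
  have hP0 : P = 0 := by
    apply Polynomial.eq_zero_of_infinite_isRoot
    refine hinf.mono ?_
    rintro _ ⟨t, ht, rfl⟩
    exact hroot t ht
  funext l
  have hc : P.coeff (l : ℕ) = v l := by
    rw [hP, Polynomial.finsetSum_coeff]
    rw [Finset.sum_eq_single l]
    · simp
    · intro b _ hb
      rw [Polynomial.coeff_C_mul, Polynomial.coeff_X_pow, if_neg, mul_zero]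
      exact fun h => hb (Fin.ext h.symm)
    · simp
  rw [← hc, hP0]
  simp

lemma gram_inj (a : Fin k → ℂ) (ha : ∀ l, ‖a l‖ < 1) (v : Fin k → ℂ)
    (h : gram a *ᵥ v = 0) : v = 0 := by
  have h1 := gram_quad a ha v
  rw [h] at h1
  simp only [Pi.zero_apply, mul_zero, Finset.sum_const_zero] at h1
  have h2 : (∫ t in (0:ℝ)..(2 * Real.pi), Complex.normSq (trig v t) / den a t) = 0 := by
    exact_mod_cast h1.symm
  apply trig_eq_zero
  intro t ht
  by_contra hne
  have hcont : Continuous fun t : ℝ => Complex.normSq (trig v t) / den a t :=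
    (Complex.continuous_normSq.comp (trig_cont v)).div (den_cont a) (fun t => (den_pos a ha t).ne')
  have hpi := Real.pi_gt_three
  have hpos : 0 < ∫ t in (0:ℝ)..(2 * Real.pi), Complex.normSq (trig v t) / den a t := by
    apply intervalIntegral.integral_pos (by linarith) hcont.continuousOn
    · intro x _
      exact div_nonneg (Complex.normSq_nonneg _) (den_pos a ha x).le
    · refine ⟨t, ⟨ht.1, by linarith [ht.2]⟩, ?_⟩
      exact div_pos (Complex.normSq_pos.mpr hne) (den_pos a ha t)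
  exact absurd h2 hpos.ne'

lemma blockGram_det {r : ℕ} (m : Fin r → ℕ) (a : (i : Fin r) → Fin (m i) → ℂ)
    (ha : ∀ i j, ‖a i j‖ < 1) : (blockDiagonal' fun i => gram (a i)).det ≠ 0 := by
  intro hdet
  obtain ⟨v, hv0, hv⟩ := Matrix.exists_mulVec_eq_zero_iff.mpr hdet
  apply hv0
  funext ⟨i, j⟩
  have h1 : gram (a i) *ᵥ (fun l => v ⟨i, l⟩) = 0 := by
    funext x
    have h2 := congrFun hv ⟨i, x⟩
    simp only [Matrix.mulVec, dotProduct, Pi.zero_apply] at h2 ⊢
    rw [Fintype.sum_sigma, Finset.sum_eq_single i] at h2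
    · simpa only [blockDiagonal'_apply_eq] using h2
    · intro b _ hb
      apply Finset.sum_eq_zero
      intro y _
      rw [blockDiagonal'_apply_ne _ _ _ hb.symm, zero_mul]
    · simp
  have h3 := gram_inj (a i) (ha i) _ h1
  exact congrFun h3 j

end pos

section final

/-- The matrix of the compressed multiplication by `φ`. -/
noncomputable def symb {k : ℕ} (a : Fin k → ℂ) (φ : ℝ → ℂ) : Matrix (Fin k) (Fin k) ℂ :=
  Matrix.of fun j l => ∫ t in (0:ℝ)..(2 * Real.pi),
    φ t * Complex.exp ((((l : ℕ) : ℂ) - ((j : ℕ) : ℂ)) * (t : ℂ) * Complex.I) /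
      ((den a t : ℝ) : ℂ)

/-- `B` is represented by a direct sum of truncated Toeplitz operators. -/
def Rep {n : ℕ} (B : Matrix (Fin n ⊕ Fin n) (Fin n ⊕ Fin n) ℂ) : Prop :=
  ∃ (r : ℕ) (m : Fin r → ℕ) (a : (i : Fin r) → Fin (m i) → ℂ) (φ : Fin r → ℝ → ℂ)
      (S : Matrix (Fin n ⊕ Fin n) (Σ i : Fin r, Fin (m i)) ℂ),
      ∑ i, m i = 2 * n ∧
      (∀ i j, ‖a i j‖ < 1) ∧
      (∀ i, Continuous (φ i)) ∧
      Sᴴ * S = Matrix.blockDiagonal' (fun i => gram (a i)) ∧
      Sᴴ * B * S = Matrix.blockDiagonal' (fun i => symb (a i) (φ i))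

lemma Rep.cover {n : ℕ} (L : Fin n → ℂ[X]) (d : Fin n → ℝ)
    (hL : ∀ i x, (L i).eval (d x : ℂ) = if x = i then 1 else 0)
    (K : Matrix (Fin n) (Fin n) ℂ) (hK : Kᴴ = K)
    (h : Rep (fromBlocks (Amat d K) 0 0 (Amat d K)ᵀ)) :
    ∃ (r : ℕ) (m : Fin r → ℕ) (_ : ∑ i, m i = 2 * n) (p : Par m),
      ∀ z : Sym2 (Fin n), Fm m L p z =
        (K (Quot.out z).1 (Quot.out z).2 * K (Quot.out z).2 (Quot.out z).1).re := by
  obtain ⟨r, m, a, φ, S, hm, ha, -, hG, hT⟩ := h
  refine ⟨r, m, hm, ?_⟩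
  obtain ⟨c1, e1, hce⟩ : ∃ c e : Idx m → ℂ,
      (Matrix.blockDiagonal' fun i => gram (a i)) = bt m c e := by
    refine ⟨fun s => ∫ t in (0:ℝ)..(2 * Real.pi),
        Complex.exp ((-((s.2 : ℕ) : ℂ)) * (t : ℂ) * Complex.I) / ((den (a s.1) t : ℝ) : ℂ),
      fun s => ∫ t in (0:ℝ)..(2 * Real.pi),
        Complex.exp (((s.2 : ℕ) : ℂ) * (t : ℂ) * Complex.I) / ((den (a s.1) t : ℝ) : ℂ), ?_⟩
    unfold bt
    congr 1
    funext i
    exact toep_of_fun (k := m i) (fun w => ∫ t in (0:ℝ)..(2 * Real.pi),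
        Complex.exp (w * (t : ℂ) * Complex.I) / ((den (a i) t : ℝ) : ℂ))
  obtain ⟨c2, e2, hce2⟩ : ∃ c e : Idx m → ℂ,
      (Matrix.blockDiagonal' fun i => symb (a i) (φ i)) = bt m c e := by
    refine ⟨fun s => ∫ t in (0:ℝ)..(2 * Real.pi),
        φ s.1 t * Complex.exp ((-((s.2 : ℕ) : ℂ)) * (t : ℂ) * Complex.I) /
          ((den (a s.1) t : ℝ) : ℂ),
      fun s => ∫ t in (0:ℝ)..(2 * Real.pi),
        φ s.1 t * Complex.exp (((s.2 : ℕ) : ℂ) * (t : ℂ) * Complex.I) /
          ((den (a s.1) t : ℝ) : ℂ), ?_⟩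
    unfold bt
    congr 1
    funext i
    exact toep_of_fun (k := m i) (fun w => ∫ t in (0:ℝ)..(2 * Real.pi),
        φ i t * Complex.exp (w * (t : ℂ) * Complex.I) / ((den (a i) t : ℝ) : ℂ))
  have hdet : (Sᴴ * S).det ≠ 0 := by
    rw [hG]
    exact blockGram_det m a ha
  have hcard : Fintype.card (Fin n ⊕ Fin n) = Fintype.card (Idx m) := by
    simp only [Fintype.card_sum, Fintype.card_fin, Fintype.card_sigma, hm]
    ring
  refine ⟨((c1, e1), (c2, e2), ((Sᴴ * S).det)⁻¹), fun z => ?_⟩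
  have hGm : Gm m ((c1, e1), (c2, e2), ((Sᴴ * S).det)⁻¹) = Sᴴ * S := by
    rw [hG, hce]; rfl
  have hTm : Tm m ((c1, e1), (c2, e2), ((Sᴴ * S).det)⁻¹) =
      Sᴴ * (fromBlocks (Amat d K) 0 0 (Amat d K)ᵀ) * S := by
    rw [hT, hce2]; rfl
  have key := trace_invariant hcard S (fromBlocks (Amat d K) 0 0 (Amat d K)ᵀ) hdet
    (L (Quot.out z).1) (L (Quot.out z).2)
  have key2 := invariant_value d K hK (L (Quot.out z).1) (L (Quot.out z).2) (Quot.out z).1
    (Quot.out z).2 (hL _) (hL _)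
  unfold Fm
  rw [hGm, hTm, key, key2]
  simp

theorem not_all_rep (n : ℕ) (hn : 16 * n + 2 < (n + 1).choose 2) :
    ∃ A : Matrix (Fin n) (Fin n) ℂ, ¬ Rep (fromBlocks A 0 0 Aᵀ) := by
  by_contra hcon
  push Not at hcon
  set d : Fin n → ℝ := fun i => ((i : ℕ) : ℝ) with hd
  have hinj : Function.Injective (fun i : Fin n => (d i : ℂ)) := by
    intro i j hij
    have : ((i : ℕ) : ℂ) = ((j : ℕ) : ℂ) := by simpa [hd] using hij
    exact Fin.ext (by exact_mod_cast this)
  set L : Fin n → ℂ[X] := fun i => Lagrange.basis Finset.univ (fun i : Fin n => (d i : ℂ)) i with hLdef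
  have hL : ∀ i x, (L i).eval (d x : ℂ) = if x = i then 1 else 0 := by
    intro i x
    by_cases h : x = i
    · subst h
      simp only [if_true]
      exact Lagrange.eval_basis_self (hinj.injOn) (Finset.mem_univ _)
    · simp only [h, if_false]
      exact Lagrange.eval_basis_of_ne (v := fun i : Fin n => (d i : ℂ)) (Ne.symm h)
        (Finset.mem_univ x)
  set U : Set (Sym2 (Fin n) → ℝ) := {q | ∀ z, 0 < q z} with hU
  have hUopen : IsOpen U := by
    have : U = Set.pi Set.univ (fun _ => Set.Ioi 0) := by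
      ext q; simp [hU]
    rw [this]
    exact isOpen_set_pi Set.finite_univ (fun _ _ => isOpen_Ioi)
  have hUne : (interior U).Nonempty := by
    rw [hUopen.interior_eq]
    exact ⟨fun _ => 1, fun _ => one_pos⟩
  have hcov : U ⊆ ⋃ x : (Σ r : ℕ, {m : Fin r → ℕ // ∑ i, m i = 2 * n}),
      Set.range (Fm (n := n) x.2.1 L) := by
    intro q hq
    set K : Matrix (Fin n) (Fin n) ℂ := Matrix.of fun i j => ((Real.sqrt (q s(i, j)) : ℝ) : ℂ) with hK
    have hKh : Kᴴ = K := by
      ext i j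
      simp [hK, Matrix.conjTranspose_apply, Sym2.eq_swap]
    obtain ⟨r, m, hm, p, hp⟩ := Rep.cover L d hL K hKh (hcon _)
    rw [Set.mem_iUnion]
    refine ⟨⟨r, ⟨m, hm⟩⟩, p, ?_⟩
    funext z
    rw [hp z]
    have hz : s((Quot.out z).1, (Quot.out z).2) = z := Quot.out_eq z
    have hz2 : s((Quot.out z).2, (Quot.out z).1) = z := by rw [Sym2.eq_swap]; exact hz
    simp only [hK, Matrix.of_apply, hz, hz2]
    rw [← Complex.ofReal_mul, Complex.ofReal_re, Real.mul_self_sqrt (hq z).le]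
  have hdimU : dimH U = ((n + 1).choose 2 : ℕ) := by
    rw [Real.dimH_of_nonempty_interior hUne]
    simp [Sym2.card]
  have hdim2 : dimH (⋃ x : (Σ r : ℕ, {m : Fin r → ℕ // ∑ i, m i = 2 * n}),
      Set.range (Fm (n := n) x.2.1 L)) ≤ ((16 * n + 2 : ℕ) : ENNReal) := by
    rw [dimH_iUnion]
    apply iSup_le
    rintro ⟨r, m, hm⟩
    refine (ContDiff.dimH_range_le (contDiff_Fm m L)).trans ?_
    rw [finrank_Par, hm]
    exact_mod_cast (by omega : 8 * (2 * n) + 2 ≤ 16 * n + 2)
  have h1 := (dimH_mono hcov).trans hdim2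
  rw [hdimU] at h1
  have h2 : (n + 1).choose 2 ≤ 16 * n + 2 := by exact_mod_cast h1
  omega

end final

end Pool.Agent.H59.TTO
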